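import Pool.Agent.P8H65.SnccTheory

/-!
# The triangulation of the counterexample

Its surface has genus two: 10 vertices, 36 edges, 24 triangles.
-/

namespace Pool.Agent.P8H65.Sncc

/-- The `i`-th digit of `N` in base `b`. -/
def dig (N b i : ℕ) : ℕ := N / b ^ i % b

/-- Reversal of darts: `2 e` and `2 e + 1` are the two orientations of the edge `e`. -/
def revF (d : Fin 72) : Fin 72 := ⟨(d.1 ^^^ 1) % 72, Nat.mod_lt _ (by norm_num)⟩

/-- The next dart along the triangle. -/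
def nextF (d : Fin 72) : Fin 72 :=
  ⟨dig 2156317964370394950004908150840075648274204761071898742917271141942547680054276668219611321226725232090263016019349815636263625186356636156208943144462 128 d.1 % 72, Nat.mod_lt _ (by norm_num)⟩

/-- Vertex labels. -/
def vtF (d : Fin 72) : ℕ := dig 222332235072122396090900309056212265013973618435374612749945020553523975977244163182848 16 d.1

/-- A cocycle. -/
def omF (d : Fin 72) : ℤ := (dig 16334654585101049912858937098651931794597906031287619383739203350570733079743313352707511113427989610783442229427077879986830249980798528869762956313188188613110329902673438650920590320328735528297508684445338921487109043033352146720113240 2048 d.1 : ℤ) - 1000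

/-- Elements of the symmetric group used for the holonomy. -/
def gel : ℕ → Equiv.Perm (Fin 3)
  | 0 => 1
  | 1 => Equiv.swap 0 1
  | 2 => Equiv.swap 1 2
  | 3 => Equiv.swap 0 1 * Equiv.swap 1 2
  | 4 => Equiv.swap 1 2 * Equiv.swap 0 1
  | _ => Equiv.swap 0 2

/-- A flat connection with values in the symmetric group. -/
def holF (d : Fin 72) : Equiv.Perm (Fin 3) := gel (dig 29622700388616723190675798446108723923080034047015878314432733795 8 d.1)

/-- The weights of the faces. -/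
def wtF (d : Fin 72) : ℤ := (dig 384307534701682962 4 d.1 : ℤ)

/-- A dart starting at each vertex. -/
def rpF (v : ℕ) : Fin 72 := ⟨dig 473509732495585771776 128 v % 72, Nat.mod_lt _ (by norm_num)⟩

/-- Words joining dart 0 to every dart. -/
def wordsF : List (List Bool) :=
  [[],
   [false],
   [true,true,false,true,true,false,true,false,true],
   [false,true,true,false,true,true,false,true,false,true],
   [true,false,true,false,true,true,false,true,true],
   [false,true,false,true,false,true,true,false,true,true],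
   [true,false,true],
   [false,true,false,true],
   [true,false,true,true,false,true],
   [false,true,false,true,true,false,true],
   [true,true,false,true,true],
   [false,true,true,false,true,true],
   [false,true,true],
   [true,true],
   [true],
   [false,true],
   [true,true,false,true],
   [false,true,true,false,true],
   [false,true,false,true,true],
   [true,false,true,true],
   [true,false,true,false,true],
   [false,true,false,true,false,true],
   [true,false,true,true,false,true,true],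
   [false,true,false,true,true,false,true,true],
   [false,true,true,false,true,false,true,true,false,true],
   [true,true,false,true,false,true,true,false,true],
   [true,false,true,false,true,true,false,true],
   [true,false,true,true,false,true,false,true],
   [false,true,true,false,true,false,true],
   [true,true,false,true,false,true],
   [true,true,false,true,false],
   [false,true,true,false,true,false],
   [true,true,false,true,false,true,true,false,true,true,false,true,false,true],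
   [true,false,true,false,true,true,false,true,true,false,true,true,false,true,false],
   [true,true,false,true,false,true,false,true,false,true,true,false,true,true],
   [true,true,false,true,true,false,true,false,true,false,true,true,false,true,false],
   [false,true,true,false,true,true,false,true,true,false,true,false],
   [true,true,false,true,true,false,true,true,false,true,false],
   [false,true,false,true,true,false,true,false,true,true,false,true,false],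
   [true,false,true,true,false,true,false,true,true,false,true,false],
   [false,true,false,true,false,true,true,false,true,false],
   [true,false,true,false,true,true,false,true,false],
   [true,false,true,true,false,true,false],
   [false,true,false,true,true,false,true,false],
   [false,true,true,false,true,true,false,true,false],
   [true,true,false,true,true,false,true,false],
   [false,true,false,true,true,false,true,true,false,true,false],
   [true,false,true,true,false,true,true,false,true,false],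
   [true,true,false,true,false,true,true,false,true,false],
   [false,true,true,false,true,false,true,true,false,true,false],
   [true,false,true,false,true,false,true,true,false,true,false],
   [false,true,false,true,false,true,false,true,true,false,true,false],
   [false,true,true,false,true,false,true,false,true,true,false,true,false],
   [true,true,false,true,false,true,false,true,true,false,true,false],
   [true,false,true,false,true,true,false,true,false,true,true,false,true,false],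
   [true,false,true,true,false,true,false,true,false,true,true,false,true,false],
   [false,true,true,false,true,false,true,true,false,true,false,true,true,false,true,false],
   [true,true,false,true,false,true,true,false,true,false,true,true,false,true,false],
   [true,false,true,true,false,true,true,false,true,true,false,true,false],
   [false,true,false,true,true,false,true,true,false,true,true,false,true,false],
   [true,false],
   [false,true,false],
   [true,false,true,false],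
   [true,true,false],
   [true,false,true,true,false,true,true,false,true,false,true],
   [false,true,false,true,true,false,true,true,false,true,false,true],
   [true,false,true,false,true,true,false,true,true,false,true,false,true],
   [true,true,false,true,true,false,true,true,false,true,false,true],
   [true,false,true,false,true,false,true,true,false,true,true],
   [false,true,false,true,false,true,false,true,true,false,true,true],
   [true,false,true,false,true,false,true,false,true,true,false,true,true],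
   [true,true,false,true,false,true,false,true,true,false,true,true]]


/-- Conversion of codes to darts. -/
def toD (n : ℕ) : Fin 72 := ⟨n % 72, Nat.mod_lt _ (by norm_num)⟩

/-- Conversion of codes of paths. -/
def toS (l : List (List ℕ)) : List (List (Fin 72)) := l.map fun r => r.map toD

/-- Conversion of codes of transitions. -/
def toT (l : List (List (ℕ × ℕ × List ℕ))) : List (List (Fin 72 × ℕ × List ℕ)) :=
  l.map fun r => r.map fun e => (toD e.1, e.2)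

/-- Representatives of the paths from vertex 0. -/
def S0 : List (List ℕ) :=
  [[0, 0, 0],
   [0, 0, 11],
   [0, 11, 70],
   [0, 11, 5],
   [0, 0],
   [11, 5, 70],
   [11, 5, 5],
   [0, 0, 20],
   [0, 11, 68],
   [0, 60, 41],
   [0, 11],
   [0, 0, 12],
   [0, 0, 60],
   [0, 11, 24],
   [0, 0, 6],
   [11, 70, 39],
   [11, 70],
   [60, 41, 35],
   [11, 5],
   [0, 6, 66],
   [11, 5, 24],
   [0, 11, 4],
   [11, 5, 9],
   [0],
   [0, 20],
   [11, 70, 54],
   [0, 6, 3],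
   [11, 68, 39],
   [11, 68],
   [0, 6, 64],
   [0, 60, 36],
   [60, 41],
   [11],
   [11, 5, 10],
   [60, 41, 69],
   [0, 12],
   [6, 3, 66],
   [0, 60, 50],
   [0, 60],
   [11, 24],
   [0, 6],
   [0, 60, 42],
   [6, 3, 7],
   [1, 11, 70],
   [62, 41, 35],
   [1, 11, 5],
   [6, 3, 28],
   [11, 68, 54],
   [6, 3, 3],
   [11, 5, 18],
   [11, 70, 40],
   [11, 4, 68],
   [6, 66],
   [60, 41, 54],
   [6, 66, 38],
   [11, 70, 48],
   [60, 36, 33],
   [60, 41, 34],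
   [11, 4],
   [0, 6, 2],
   [],
   [60, 41, 71],
   [6, 66, 58],
   [6, 66, 37],
   [20],
   [6, 3],
   [1, 11, 68],
   [6, 64],
   [6, 64, 38],
   [60, 36],
   [62, 41],
   [1, 11],
   [6, 2, 7],
   [11, 68, 52],
   [62, 41, 69],
   [12],
   [11, 68, 40],
   [6, 64, 58],
   [6, 64, 37],
   [60, 50],
   [60],
   [6, 26],
   [11, 68, 48],
   [11, 4, 4],
   [6],
   [60, 36, 65],
   [60, 42],
   [11, 4, 10],
   [6, 2, 64],
   [60, 36, 32],
   [6, 2, 8],
   [11, 4, 22],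
   [6, 64, 56],
   [1, 6, 66],
   [60, 36, 56],
   [6, 2, 26],
   [62, 36, 33],
   [62, 41, 34],
   [1, 11, 4],
   [6, 2],
   [60, 36, 67],
   [1],
   [62, 41, 71],
   [6, 3, 16],
   [1, 20],
   [1, 6, 3],
   [6, 66, 46],
   [1, 6, 64],
   [62, 36],
   [1, 62, 41],
   [1, 1, 11],
   [6, 2, 2],
   [14],
   [62, 50],
   [62],
   [1, 6, 26],
   [1, 6],
   [6, 64, 46],
   [62, 36, 65],
   [60, 44],
   [62, 36, 32],
   [6, 2, 16],
   [62, 36, 56],
   [1, 6, 2],
   [62, 36, 67],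
   [1, 1],
   [1, 1, 20],
   [1, 62, 36],
   [1, 14],
   [1, 62, 50],
   [1, 62],
   [1, 1, 6],
   [62, 44],
   [1, 1, 1],
   [1, 1, 14],
   [1, 1, 62],
   [1, 62, 44]]

/-- Transitions between the paths from vertex 0. -/
def R0 : List (List (ℕ × ℕ × List ℕ)) :=
  [[],
   [],
   [],
   [],
   [(0,0,[]), (1,23,[4]), (6,14,[]), (11,1,[]), (12,11,[]), (14,35,[5]), (20,7,[]), (60,12,[]), (62,38,[5])],
   [],
   [],
   [],
   [],
   [],
   [(4,21,[]), (5,3,[]), (9,14,[6, 9, 6, 9]), (10,23,[4]), (18,35,[5]), (22,24,[5]), (24,13,[]), (68,8,[]), (70,2,[])],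
   [],
   [],
   [],
   [],
   [],
   [(34,28,[5]), (35,5,[6, 9]), (39,15,[]), (40,50,[]), (48,55,[]), (52,47,[7, 9]), (54,25,[]), (69,18,[5]), (71,32,[4])],
   [],
   [(4,32,[4]), (5,6,[]), (9,22,[]), (10,33,[]), (18,49,[]), (22,39,[5]), (24,20,[]), (68,16,[5]), (70,5,[])],
   [],
   [],
   [],
   [],
   [(0,4,[]), (1,60,[0]), (6,40,[]), (11,10,[]), (12,35,[]), (14,75,[1]), (20,24,[]), (60,38,[]), (62,80,[1])],
   [(21,23,[4]), (23,10,[5]), (25,21,[6, 9]), (27,26,[7, 9]), (29,40,[5])],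
   [],
   [],
   [],
   [(34,51,[7, 9]), (35,16,[5]), (39,27,[]), (40,76,[]), (48,82,[]), (52,73,[]), (54,47,[]), (69,32,[4]), (71,58,[5])],
   [],
   [],
   [(34,57,[]), (35,17,[]), (39,30,[7, 9, 7, 9, 3, 5]), (40,80,[4]), (48,86,[5]), (52,79,[5]), (54,53,[]), (69,34,[]), (71,61,[])],
   [(4,58,[]), (5,18,[]), (9,40,[2, 2, 9, 5]), (10,60,[0]), (18,75,[1]), (22,64,[1]), (24,39,[]), (68,28,[]), (70,16,[])],
   [],
   [],
   [(13,23,[4]), (15,4,[5]), (17,14,[6, 9]), (19,10,[5])],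
   [],
   [],
   [(30,12,[7, 9]), (31,80,[5, 1]), (36,30,[]), (41,9,[]), (42,41,[]), (44,86,[2, 5, 5]), (50,37,[]), (61,23,[4]), (63,4,[5])],
   [(21,33,[7, 9]), (23,18,[5]), (25,32,[4]), (27,40,[2, 9, 2, 9, 5]), (29,59,[6, 9, 2, 5, 2, 5])],
   [(2,59,[]), (3,26,[]), (7,23,[4]), (8,32,[3, 5, 5, 1]), (16,75,[5, 1]), (26,39,[3, 5, 3, 5, 5]), (28,24,[5]), (64,29,[]), (66,19,[])],
   [],
   [],
   [],
   [],
   [],
   [],
   [],
   [],
   [],
   [],
   [],
   [(32,67,[5]), (33,36,[6, 9]), (37,63,[]), (38,54,[]), (46,106,[]), (56,77,[7, 9]), (58,62,[]), (65,65,[5]), (67,84,[4])],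
   [],
   [],
   [],
   [],
   [],
   [(4,83,[]), (5,32,[4]), (9,65,[3, 5, 3, 9, 5]), (10,87,[]), (18,103,[3, 5, 7, 9, 3, 5]), (22,91,[]), (24,64,[5, 1]), (68,51,[]), (70,28,[5])],
   [],
   [(0,23,[]), (1,101,[]), (6,84,[]), (11,32,[]), (12,75,[]), (14,112,[]), (20,64,[]), (60,80,[]), (62,114,[])],
   [],
   [],
   [],
   [(21,60,[0]), (23,32,[1]), (25,58,[2, 5]), (27,65,[3, 5]), (29,84,[1])],
   [(2,84,[4]), (3,48,[]), (7,42,[]), (8,58,[2, 5, 2, 9, 5]), (16,103,[]), (26,64,[5, 1]), (28,46,[]), (64,52,[5]), (66,36,[])],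
   [],
   [(32,88,[7, 9]), (33,52,[5]), (37,78,[]), (38,68,[]), (46,117,[]), (56,92,[]), (58,77,[]), (65,84,[4]), (67,99,[5])],
   [],
   [(32,89,[]), (33,56,[]), (37,80,[4]), (38,70,[6, 9, 2, 5, 5]), (46,119,[5]), (56,94,[]), (58,79,[5]), (65,85,[]), (67,100,[])],
   [(34,97,[]), (35,44,[]), (39,69,[7, 9, 3, 5, 5]), (40,114,[4]), (48,119,[3, 9, 5]), (52,113,[5]), (54,94,[3, 7, 9, 7, 9, 9]), (69,74,[]), (71,102,[])],
   [(4,98,[]), (5,45,[]), (9,84,[2, 5, 5, 1]), (10,101,[4]), (18,112,[5, 1]), (22,104,[5]), (24,81,[2, 5, 2, 5, 5]), (68,66,[]), (70,43,[])],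
   [],
   [],
   [],
   [(13,60,[0]), (15,23,[1]), (17,40,[2, 5]), (19,32,[1])],
   [],
   [],
   [],
   [(51,80,[4]), (53,31,[5]), (55,57,[7, 9]), (57,56,[6, 9]), (59,69,[5])],
   [(30,38,[3, 5]), (31,114,[1]), (36,69,[]), (41,31,[]), (42,86,[]), (44,119,[]), (50,79,[]), (61,60,[0]), (63,23,[1])],
   [(21,72,[6, 9]), (23,45,[7, 9, 3, 5, 3, 5]), (25,71,[3, 9, 3, 9, 5]), (27,84,[4]), (29,99,[5])],
   [],
   [],
   [(2,99,[]), (3,65,[]), (7,60,[0]), (8,71,[3, 3, 9, 5]), (16,112,[1]), (26,81,[]), (28,64,[1]), (64,67,[]), (66,52,[])],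
   [],
   [(43,80,[4]), (45,38,[3, 9, 5]), (47,30,[7, 9, 3, 5]), (49,31,[5])],
   [],
   [],
   [],
   [],
   [],
   [],
   [],
   [],
   [],
   [],
   [],
   [],
   [(2,111,[]), (3,84,[4]), (7,72,[]), (8,90,[]), (16,121,[]), (26,95,[]), (28,81,[5]), (64,88,[]), (66,67,[5])],
   [],
   [(0,60,[0]), (1,125,[]), (6,116,[]), (11,71,[]), (12,112,[1]), (14,128,[]), (20,104,[]), (60,114,[1]), (62,130,[])],
   [],
   [],
   [(21,101,[4]), (23,71,[5]), (25,98,[6, 9]), (27,105,[7, 9]), (29,116,[5])],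
   [],
   [],
   [],
   [(32,120,[]), (33,96,[]), (37,114,[4]), (38,109,[6, 9, 6, 9, 2, 5]), (46,132,[5]), (56,122,[]), (58,113,[5]), (65,118,[]), (67,124,[])],
   [],
   [],
   [],
   [(13,101,[1]), (15,60,[0]), (17,84,[1]), (19,71,[3, 5])],
   [(51,114,[4]), (53,70,[5]), (55,97,[7, 9]), (57,96,[6, 9]), (59,108,[5])],
   [(30,80,[1]), (31,130,[2, 5]), (36,108,[]), (41,70,[]), (42,119,[3, 5]), (44,132,[]), (50,113,[]), (61,101,[1]), (63,60,[0])],
   [],
   [(2,123,[]), (3,105,[]), (7,101,[4]), (8,110,[7, 9, 7, 9]), (16,128,[5]), (26,115,[]), (28,104,[5]), (64,107,[]), (66,93,[])],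
   [],
   [],
   [(43,114,[5, 1]), (45,80,[4]), (47,69,[5]), (49,70,[2, 5, 5])],
   [],
   [],
   [],
   [],
   [],
   [(0,101,[4]), (1,133,[]), (6,131,[]), (11,110,[]), (12,128,[5]), (14,134,[]), (20,126,[]), (60,130,[5]), (62,135,[])],
   [],
   [],
   [(13,125,[5]), (15,101,[4]), (17,116,[5]), (19,110,[7, 9])],
   [],
   [(30,114,[5, 1]), (31,135,[6, 9]), (36,127,[]), (41,109,[]), (42,132,[3, 5, 5]), (44,136,[]), (50,129,[]), (61,125,[5]), (63,101,[4])],
   [],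
   [(43,130,[2, 9, 5]), (45,114,[4]), (47,108,[5]), (49,109,[6, 9, 2, 5])],
   [],
   [],
   [],
   []]

/-- Representatives of the paths from vertex 1. -/
def S1 : List (List ℕ) :=
  [[7, 0, 0],
   [7, 0, 11],
   [66, 37, 63],
   [3, 7, 0],
   [7, 11, 70],
   [7, 11, 5],
   [66, 37, 41],
   [3, 7, 11],
   [64, 37, 63],
   [7, 0],
   [8, 5, 70],
   [66, 37, 30],
   [3, 3, 66],
   [8, 5, 5],
   [7, 0, 20],
   [3, 3, 7],
   [3, 8, 70],
   [64, 37, 41],
   [7, 60, 41],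
   [7, 11],
   [3, 3, 28],
   [2, 7, 0],
   [3, 3, 3],
   [7, 0, 12],
   [64, 37, 30],
   [3, 66],
   [7, 0, 60],
   [7, 11, 24],
   [3, 66, 38],
   [3, 3, 8],
   [7, 0, 6],
   [66, 37, 61],
   [8, 70, 39],
   [3, 7],
   [8, 70],
   [64, 38, 35],
   [3, 66, 58],
   [3, 66, 37],
   [8, 5],
   [3, 28],
   [3, 3],
   [3, 8, 68],
   [66],
   [8, 5, 24],
   [66, 38],
   [3, 8],
   [8, 5, 9],
   [64, 37, 61],
   [66, 38, 69],
   [7],
   [2, 8, 70],
   [3, 7, 12],
   [66, 58],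
   [66, 37],
   [2, 8, 5],
   [3, 7, 60],
   [28],
   [8, 70, 54],
   [3],
   [66, 37, 42],
   [8, 68, 39],
   [8, 68],
   [64],
   [64, 38],
   [7, 60, 36],
   [7, 62, 41],
   [8],
   [64, 38, 69],
   [2, 7],
   [7, 12],
   [64, 58],
   [64, 37],
   [7, 60, 50],
   [7, 60],
   [26],
   [66, 38, 34],
   [3, 8, 4],
   [],
   [64, 37, 42],
   [7, 60, 42],
   [66, 38, 71],
   [3, 7, 1],
   [2, 8, 68],
   [2, 64],
   [3, 3, 16],
   [2, 64, 38],
   [2, 8],
   [3, 8, 22],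
   [2, 2, 7],
   [8, 68, 54],
   [3, 66, 46],
   [2, 7, 12],
   [8, 70, 40],
   [64, 56],
   [8, 4, 68],
   [2, 64, 37],
   [2, 7, 60],
   [2, 26],
   [64, 38, 34],
   [8, 70, 48],
   [8, 4],
   [2],
   [64, 38, 71],
   [7, 1],
   [2, 2, 64],
   [3, 16],
   [66, 38, 52],
   [66, 37, 31],
   [2, 2, 8],
   [3, 7, 62],
   [8, 22],
   [8, 4, 9],
   [66, 46],
   [2, 64, 56],
   [2, 2, 26],
   [7, 62, 36],
   [2, 8, 4],
   [2, 2],
   [2, 7, 1],
   [8, 68, 52],
   [16],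
   [8, 68, 40],
   [64, 38, 52],
   [64, 37, 31],
   [7, 62, 50],
   [7, 62],
   [2, 8, 22],
   [8, 68, 48],
   [8, 4, 4],
   [7, 1, 6],
   [64, 46],
   [7, 60, 44],
   [8, 4, 10],
   [2, 2, 2],
   [8, 4, 22],
   [2, 16],
   [2, 7, 62],
   [2, 64, 46],
   [7, 1, 1],
   [8, 4, 18],
   [2, 2, 16],
   [7, 1, 14],
   [7, 1, 62],
   [7, 62, 44]]

/-- Transitions between the paths from vertex 1. -/
def R1 : List (List (ℕ × ℕ × List ℕ)) :=
  [[],
   [],
   [],
   [],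
   [],
   [],
   [],
   [],
   [],
   [(0,0,[]), (1,49,[4]), (6,30,[]), (11,1,[]), (12,23,[]), (14,69,[5]), (20,14,[]), (60,26,[]), (62,73,[5])],
   [],
   [],
   [],
   [],
   [],
   [],
   [],
   [],
   [],
   [(4,45,[3, 5, 3, 9, 5]), (5,5,[]), (9,30,[6, 9, 6, 9]), (10,49,[4]), (18,69,[5]), (22,56,[5, 1]), (24,27,[]), (68,16,[3, 5, 7, 9, 3, 5]), (70,4,[])],
   [],
   [],
   [],
   [],
   [],
   [(32,42,[5, 1]), (33,12,[6, 9]), (37,37,[]), (38,28,[]), (46,90,[]), (56,52,[3, 5, 5]), (58,36,[]), (65,40,[5]), (67,58,[4])],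
   [],
   [],
   [],
   [],
   [],
   [],
   [],
   [(0,3,[]), (1,81,[]), (6,58,[4]), (11,7,[]), (12,51,[]), (14,105,[5]), (20,39,[5]), (60,55,[]), (62,109,[])],
   [(34,61,[5]), (35,10,[6, 9]), (39,32,[]), (40,92,[]), (48,99,[]), (52,89,[7, 9]), (54,57,[]), (69,38,[5]), (71,66,[4])],
   [],
   [],
   [],
   [(4,66,[4]), (5,13,[]), (9,46,[]), (10,68,[2, 5, 2, 9, 5]), (18,91,[2, 5, 6, 9, 2, 5]), (22,74,[5, 1]), (24,43,[]), (68,34,[5]), (70,10,[])],
   [(21,33,[5]), (23,7,[6, 9]), (25,29,[7, 9]), (27,40,[5]), (29,58,[4])],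
   [(2,58,[4]), (3,22,[]), (7,15,[]), (8,29,[]), (16,84,[]), (26,39,[5]), (28,20,[]), (64,25,[5]), (66,12,[])],
   [],
   [(32,62,[1]), (33,25,[2, 5]), (37,53,[]), (38,44,[]), (46,112,[]), (56,70,[3, 5]), (58,52,[]), (65,58,[1]), (67,77,[0])],
   [],
   [(34,75,[]), (35,17,[7, 9, 3, 5, 7, 9]), (39,42,[4]), (40,107,[6, 9, 6, 9]), (48,112,[5]), (52,106,[]), (54,70,[3, 9, 5]), (69,48,[]), (71,80,[])],
   [(4,76,[]), (5,19,[2, 5, 2, 9, 5]), (9,58,[4]), (10,81,[7, 9, 7, 9]), (18,105,[5]), (22,87,[]), (24,56,[5, 1]), (68,41,[]), (70,16,[])],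
   [],
   [],
   [],
   [(0,9,[]), (1,103,[]), (6,77,[0]), (11,19,[]), (12,69,[]), (14,120,[1]), (20,56,[1]), (60,73,[]), (62,125,[])],
   [],
   [],
   [(51,53,[5]), (53,6,[7, 9]), (55,28,[6, 9, 2, 5]), (57,25,[2, 9, 5]), (59,42,[4])],
   [(30,11,[]), (31,107,[]), (36,42,[4]), (41,6,[]), (42,59,[]), (44,112,[5]), (50,52,[5]), (61,31,[]), (63,2,[])],
   [],
   [],
   [(21,49,[1]), (23,19,[2, 5]), (25,45,[3, 5]), (27,58,[1]), (29,77,[0])],
   [],
   [(2,77,[0]), (3,40,[]), (7,33,[]), (8,45,[]), (16,105,[]), (26,56,[1]), (28,39,[]), (64,42,[1]), (66,25,[])],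
   [],
   [],
   [(34,94,[7, 9]), (35,34,[5]), (39,60,[]), (40,121,[]), (48,127,[]), (52,119,[]), (54,89,[]), (69,66,[4]), (71,100,[5])],
   [(32,83,[3, 5]), (33,42,[1]), (37,71,[]), (38,63,[]), (46,130,[]), (56,93,[]), (58,70,[]), (65,77,[0]), (67,101,[1])],
   [(34,98,[]), (35,35,[]), (39,62,[4]), (40,123,[6, 9, 6, 9]), (48,130,[5]), (52,122,[]), (54,93,[5]), (69,67,[]), (71,102,[])],
   [],
   [],
   [(4,100,[]), (5,38,[]), (9,77,[0]), (10,103,[3, 3, 9, 5]), (18,120,[1]), (22,110,[]), (24,74,[1]), (68,61,[]), (70,34,[])],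
   [],
   [(0,21,[]), (1,118,[]), (6,101,[4]), (11,38,[3, 5, 3, 9, 5]), (12,91,[]), (14,135,[5]), (20,74,[5, 1]), (60,96,[]), (62,136,[])],
   [(13,49,[4]), (15,9,[5]), (17,30,[6, 9]), (19,19,[5])],
   [(51,71,[5]), (53,17,[7, 9]), (55,44,[2, 5, 5]), (57,42,[5, 1]), (59,62,[4])],
   [(30,24,[]), (31,123,[]), (36,62,[4]), (41,17,[]), (42,78,[]), (44,130,[5]), (50,70,[5]), (61,47,[]), (63,8,[])],
   [],
   [(30,26,[7, 9]), (31,125,[5]), (36,64,[]), (41,18,[]), (42,79,[]), (44,131,[]), (50,72,[]), (61,49,[4]), (63,9,[5])],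
   [(21,68,[2, 5]), (23,38,[3, 5]), (25,66,[1]), (27,77,[0]), (29,101,[1])],
   [],
   [],
   [(2,101,[]), (3,58,[]), (7,49,[]), (8,66,[]), (16,120,[]), (26,74,[]), (28,56,[]), (64,62,[]), (66,42,[])],
   [],
   [],
   [],
   [],
   [],
   [(32,104,[7, 9]), (33,62,[5, 1]), (37,95,[]), (38,85,[]), (46,137,[]), (56,113,[]), (58,93,[2, 5, 5]), (65,101,[4]), (67,117,[5])],
   [],
   [],
   [(4,116,[]), (5,54,[]), (9,101,[4]), (10,118,[7, 9, 7, 9]), (18,135,[5]), (22,126,[]), (24,97,[5]), (68,82,[]), (70,50,[])],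
   [],
   [],
   [],
   [],
   [],
   [],
   [(51,95,[7, 9, 3, 5]), (53,35,[6, 9]), (55,63,[5]), (57,62,[4]), (59,83,[3, 9, 5])],
   [],
   [],
   [],
   [(21,88,[6, 9]), (23,54,[7, 9]), (25,86,[5]), (27,101,[4]), (29,117,[5])],
   [],
   [],
   [(4,128,[]), (5,66,[4]), (9,111,[]), (10,132,[]), (18,139,[]), (22,134,[]), (24,110,[5]), (68,94,[]), (70,61,[5])],
   [(2,117,[]), (3,77,[0]), (7,68,[]), (8,86,[]), (16,135,[]), (26,97,[]), (28,74,[1]), (64,83,[]), (66,62,[1])],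
   [],
   [(0,49,[4]), (1,138,[]), (6,129,[]), (11,66,[2, 5, 5, 1]), (12,120,[5, 1]), (14,141,[]), (20,110,[2, 5, 2, 5, 5]), (60,125,[5]), (62,142,[])],
   [],
   [(13,81,[7, 9]), (15,33,[5]), (17,58,[4]), (19,45,[5])],
   [],
   [],
   [],
   [],
   [(21,103,[3, 9, 3, 9, 5]), (23,66,[4]), (25,100,[5]), (27,111,[6, 9]), (29,129,[7, 9, 3, 5, 3, 5])],
   [],
   [(43,107,[6, 9]), (45,53,[5]), (47,42,[4]), (49,44,[5])],
   [],
   [],
   [],
   [],
   [(2,133,[]), (3,101,[4]), (7,88,[]), (8,108,[]), (16,140,[]), (26,114,[]), (28,97,[5]), (64,104,[]), (66,83,[5])],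
   [],
   [],
   [(13,103,[3, 5]), (15,49,[1]), (17,77,[0]), (19,66,[1])],
   [],
   [],
   [],
   [],
   [(30,73,[5]), (31,142,[6, 9]), (36,115,[]), (41,65,[]), (42,131,[7, 9]), (44,143,[]), (50,124,[]), (61,103,[5]), (63,49,[4])],
   [],
   [],
   [],
   [],
   [(43,123,[6, 9]), (45,71,[5]), (47,62,[4]), (49,63,[5])],
   [],
   [],
   [],
   [],
   [(13,118,[7, 9]), (15,68,[5]), (17,101,[4]), (19,86,[5])],
   [],
   [],
   [],
   [],
   [],
   [],
   [],
   []]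

/-- Representatives of the paths from vertex 2. -/
def S2 : List (List ℕ) :=
  [[5, 5, 70],
   [5, 5, 5],
   [5, 70, 39],
   [9, 7, 0],
   [5, 70],
   [5, 5],
   [70, 39, 33],
   [5, 9, 66],
   [5, 5, 24],
   [70, 40, 63],
   [9, 7, 11],
   [5, 5, 9],
   [5, 9, 7],
   [9, 3, 66],
   [5, 9, 28],
   [5, 70, 54],
   [5, 9, 3],
   [70, 39],
   [9, 3, 7],
   [70],
   [5, 9, 64],
   [5],
   [9, 3, 28],
   [5, 5, 10],
   [70, 39, 58],
   [9, 3, 3],
   [70, 39, 37],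
   [68, 39, 33],
   [9, 66],
   [5, 24],
   [9, 66, 38],
   [70, 39, 65],
   [68, 40, 63],
   [9, 3, 8],
   [5, 9],
   [70, 39, 32],
   [9, 7],
   [9, 66, 58],
   [9, 66, 37],
   [9, 28],
   [70, 54],
   [9, 3],
   [5, 5, 18],
   [5, 70, 40],
   [68, 39],
   [68],
   [9, 64],
   [9, 64, 38],
   [70, 39, 67],
   [5, 70, 48],
   [70, 40, 61],
   [10, 60, 41],
   [],
   [5, 9, 2],
   [5, 10],
   [68, 39, 58],
   [9, 7, 12],
   [68, 39, 37],
   [9, 64, 58],
   [9, 64, 37],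
   [4, 9, 66],
   [9, 7, 60],
   [24],
   [68, 39, 65],
   [9],
   [68, 39, 32],
   [4, 9, 7],
   [9, 2, 64],
   [9, 2, 8],
   [4, 9, 28],
   [68, 54],
   [4, 9, 3],
   [5, 18],
   [70, 40],
   [4, 68, 39],
   [9, 64, 56],
   [4, 68],
   [4, 9, 64],
   [5, 10, 60],
   [9, 2, 26],
   [68, 39, 67],
   [70, 48],
   [68, 40, 61],
   [4],
   [9, 2],
   [10],
   [9, 3, 16],
   [22],
   [4, 9],
   [9, 66, 46],
   [68, 40, 36],
   [10, 6, 64],
   [10, 60, 36],
   [10, 62, 41],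
   [10, 1, 11],
   [9, 2, 2],
   [5, 10, 1],
   [68, 52],
   [18],
   [68, 40],
   [4, 4, 68],
   [10, 60, 50],
   [10, 60],
   [10, 6, 26],
   [68, 48],
   [4, 4],
   [10, 6],
   [9, 64, 46],
   [10, 60, 42],
   [4, 10],
   [4, 22],
   [4, 4, 9],
   [5, 10, 14],
   [70, 40, 31],
   [5, 10, 62],
   [70, 40, 44],
   [10, 6, 2],
   [10, 1],
   [4, 68, 52],
   [4, 18],
   [4, 68, 40],
   [4, 10, 60],
   [10, 1, 20],
   [4, 68, 48],
   [4, 4, 4],
   [4, 10, 6],
   [4, 4, 10],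
   [10, 62, 36],
   [4, 4, 22],
   [10, 14],
   [68, 40, 31],
   [10, 62, 50],
   [10, 62],
   [68, 40, 44],
   [10, 1, 6],
   [10, 60, 44],
   [4, 10, 1],
   [4, 4, 18],
   [10, 1, 1],
   [4, 10, 14],
   [4, 10, 62],
   [10, 1, 14],
   [10, 1, 62],
   [10, 62, 44]]

/-- Transitions between the paths from vertex 2. -/
def R2 : List (List (ℕ × ℕ × List ℕ)) :=
  [[],
   [],
   [],
   [],
   [(34,19,[5, 1]), (35,0,[6, 9]), (39,2,[]), (40,43,[]), (48,49,[]), (52,40,[3, 5, 5]), (54,15,[]), (69,5,[5]), (71,21,[4])],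
   [(4,21,[4]), (5,1,[]), (9,11,[]), (10,23,[]), (18,42,[]), (22,29,[5]), (24,8,[]), (68,4,[5]), (70,0,[])],
   [],
   [],
   [],
   [],
   [],
   [],
   [],
   [],
   [],
   [],
   [],
   [(32,35,[]), (33,6,[]), (37,26,[]), (38,19,[4]), (46,81,[5]), (56,40,[5]), (58,24,[]), (65,31,[]), (67,48,[])],
   [],
   [(34,45,[1]), (35,4,[2, 5]), (39,17,[]), (40,73,[]), (48,81,[]), (52,70,[3, 5]), (54,40,[]), (69,21,[1]), (71,52,[0])],
   [],
   [(4,52,[0]), (5,5,[]), (9,34,[]), (10,54,[]), (18,72,[]), (22,62,[1]), (24,29,[]), (68,19,[1]), (70,4,[])],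
   [],
   [],
   [],
   [],
   [],
   [],
   [(32,46,[5]), (33,13,[6, 9]), (37,38,[]), (38,30,[]), (46,89,[]), (56,58,[7, 9]), (58,37,[]), (65,41,[5]), (67,64,[4])],
   [(21,23,[7, 9]), (23,5,[5]), (25,21,[4]), (27,34,[5]), (29,53,[6, 9])],
   [],
   [],
   [],
   [],
   [(2,53,[]), (3,16,[]), (7,12,[]), (8,21,[4]), (16,72,[5]), (26,29,[5]), (28,14,[]), (64,20,[]), (66,7,[])],
   [],
   [(0,3,[]), (1,85,[2, 5, 5, 1]), (6,64,[4]), (11,10,[]), (12,56,[]), (14,98,[5, 1]), (20,39,[5]), (60,61,[]), (62,102,[2, 5, 2, 5, 5])],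
   [],
   [],
   [(21,36,[5]), (23,10,[6, 9]), (25,33,[7, 9]), (27,41,[5]), (29,64,[4])],
   [(51,43,[6, 9, 2, 5]), (53,4,[2, 9, 5]), (55,19,[4]), (57,17,[5]), (59,35,[7, 9])],
   [(2,64,[4]), (3,25,[]), (7,18,[]), (8,33,[]), (16,86,[]), (26,39,[5]), (28,22,[]), (64,28,[5]), (66,13,[])],
   [],
   [],
   [(32,65,[]), (33,27,[]), (37,57,[]), (38,45,[4]), (46,104,[5]), (56,70,[5]), (58,55,[]), (65,63,[]), (67,80,[])],
   [(34,76,[3, 5]), (35,19,[1]), (39,44,[]), (40,99,[]), (48,104,[]), (52,97,[]), (54,70,[]), (69,52,[0]), (71,83,[1])],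
   [(32,67,[7, 9]), (33,28,[5]), (37,59,[]), (38,47,[]), (46,107,[]), (56,75,[]), (58,58,[]), (65,64,[4]), (67,84,[5])],
   [],
   [],
   [],
   [],
   [],
   [(4,83,[]), (5,21,[]), (9,64,[]), (10,85,[]), (18,98,[]), (22,87,[]), (24,62,[]), (68,45,[]), (70,19,[])],
   [],
   [(0,12,[7, 9, 7, 9]), (1,96,[]), (6,84,[2, 5, 2, 9, 5]), (11,21,[4]), (12,72,[5]), (14,112,[]), (20,62,[5, 1]), (60,78,[]), (62,114,[])],
   [],
   [],
   [],
   [],
   [],
   [],
   [],
   [(21,54,[3, 5]), (23,21,[1]), (25,52,[0]), (27,64,[1]), (29,84,[2, 5])],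
   [],
   [(2,84,[]), (3,41,[]), (7,36,[]), (8,52,[0]), (16,98,[1]), (26,62,[1]), (28,39,[]), (64,46,[]), (66,28,[])],
   [],
   [],
   [],
   [],
   [],
   [(51,73,[2, 5, 5]), (53,19,[5, 1]), (55,45,[4]), (57,44,[5]), (59,65,[7, 9])],
   [],
   [(13,54,[5]), (15,12,[7, 9]), (17,34,[5]), (19,21,[4])],
   [(30,26,[6, 9, 6, 9]), (31,113,[]), (36,65,[7, 9, 3, 5, 7, 9]), (41,19,[4]), (42,81,[5]), (44,115,[]), (50,70,[3, 9, 5]), (61,50,[]), (63,9,[])],
   [],
   [],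
   [(34,100,[7, 9]), (35,45,[5, 1]), (39,74,[]), (40,120,[]), (48,123,[]), (52,118,[]), (54,97,[2, 5, 5]), (69,83,[4]), (71,105,[5])],
   [],
   [],
   [],
   [],
   [(43,73,[5]), (45,26,[6, 9]), (47,17,[5]), (49,19,[4])],
   [],
   [(4,105,[]), (5,52,[0]), (9,88,[]), (10,109,[]), (18,119,[]), (22,110,[]), (24,87,[1]), (68,76,[]), (70,45,[1])],
   [(2,95,[]), (3,64,[4]), (7,54,[3, 5, 3, 9, 5]), (8,68,[]), (16,112,[3, 5, 7, 9, 3, 5]), (26,79,[]), (28,62,[5, 1]), (64,67,[]), (66,46,[5])],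
   [(0,36,[3, 3, 9, 5]), (1,117,[]), (6,106,[]), (11,52,[0]), (12,98,[1]), (14,129,[]), (20,87,[1]), (60,102,[]), (62,132,[])],
   [],
   [(21,85,[1]), (23,52,[0]), (25,83,[1]), (27,88,[2, 5]), (29,106,[3, 5])],
   [(2,106,[3, 5, 3, 9, 5]), (3,71,[]), (7,66,[]), (8,83,[4]), (16,119,[5]), (26,87,[5, 1]), (28,69,[]), (64,77,[]), (66,60,[])],
   [],
   [],
   [],
   [],
   [],
   [],
   [],
   [],
   [(51,99,[5]), (53,45,[4]), (55,76,[3, 9, 5]), (57,74,[7, 9, 3, 5]), (59,90,[6, 9])],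
   [(13,85,[1]), (15,36,[3, 5]), (17,64,[1]), (19,52,[0])],
   [(30,57,[6, 9, 6, 9]), (31,130,[]), (36,90,[]), (41,45,[4]), (42,104,[5]), (44,133,[]), (50,97,[5]), (61,82,[]), (63,32,[])],
   [],
   [],
   [(30,61,[7, 9, 3, 5, 3, 5]), (31,132,[5]), (36,92,[]), (41,51,[]), (42,108,[]), (44,135,[]), (50,101,[]), (61,85,[4]), (63,36,[3, 9, 3, 9, 5])],
   [],
   [(43,99,[5]), (45,57,[6, 9]), (47,44,[5]), (49,45,[4])],
   [(4,124,[]), (5,83,[4]), (9,111,[]), (10,126,[]), (18,137,[]), (22,128,[]), (24,110,[5]), (68,100,[]), (70,76,[5])],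
   [(2,116,[]), (3,88,[2, 5, 2, 9, 5]), (7,85,[4]), (8,94,[7, 9, 7, 9]), (16,129,[5]), (26,103,[]), (28,87,[5, 1]), (64,91,[]), (66,77,[2, 5, 6, 9, 2, 5])],
   [],
   [],
   [(0,66,[7, 9, 7, 9]), (1,136,[]), (6,125,[]), (11,83,[4]), (12,119,[5]), (14,139,[]), (20,110,[5]), (60,121,[]), (62,140,[])],
   [(21,109,[5]), (23,83,[4]), (25,105,[5]), (27,111,[6, 9]), (29,125,[7, 9])],
   [],
   [],
   [],
   [],
   [],
   [],
   [(0,85,[4]), (1,138,[]), (6,134,[]), (11,94,[]), (12,129,[5]), (14,141,[]), (20,122,[]), (60,132,[5]), (62,142,[])],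
   [],
   [(13,109,[5]), (15,66,[7, 9]), (17,88,[5]), (19,83,[4])],
   [],
   [],
   [],
   [],
   [],
   [],
   [],
   [],
   [],
   [(13,117,[5]), (15,85,[4]), (17,106,[5]), (19,94,[7, 9])],
   [],
   [],
   [(30,102,[5]), (31,142,[6, 9]), (36,127,[]), (41,93,[]), (42,135,[7, 9]), (44,143,[]), (50,131,[]), (61,117,[5]), (63,85,[4])],
   [],
   [],
   [],
   [],
   [],
   [],
   [],
   [],
   [],
   [],
   []]

/-- Representatives of the paths from vertex 5. -/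
def S5 : List (List ℕ) :=
  [[30, 30, 63],
   [30, 30, 41],
   [30, 63, 11],
   [30, 30, 30],
   [63, 11, 70],
   [30, 41, 35],
   [63, 11, 5],
   [30, 63],
   [41, 35, 35],
   [30, 63, 20],
   [63, 11, 68],
   [30, 30, 36],
   [30, 41],
   [63, 11],
   [30, 41, 69],
   [30, 63, 12],
   [30, 30, 50],
   [30, 30],
   [63, 11, 24],
   [30, 63, 6],
   [30, 30, 42],
   [61, 11, 70],
   [41, 35, 39],
   [41, 35],
   [61, 11, 5],
   [41, 35, 69],
   [63, 6, 66],
   [30, 41, 54],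
   [30, 36, 33],
   [30, 41, 34],
   [63, 11, 4],
   [63],
   [30, 41, 71],
   [63, 20],
   [63, 6, 3],
   [61, 11, 68],
   [63, 6, 64],
   [41, 35, 54],
   [30, 36],
   [41],
   [61, 11],
   [41, 69],
   [63, 12],
   [30, 50],
   [30],
   [61, 11, 24],
   [36, 33, 33],
   [63, 6],
   [41, 69, 24],
   [30, 36, 65],
   [30, 42],
   [41, 69, 9],
   [30, 36, 32],
   [31, 41, 35],
   [61, 6, 66],
   [41, 54],
   [41, 35, 40],
   [36, 33],
   [41, 34],
   [61, 11, 4],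
   [63, 6, 2],
   [30, 36, 67],
   [41, 35, 48],
   [61],
   [41, 71],
   [36, 65, 7],
   [41, 69, 10],
   [36, 33, 58],
   [36, 33, 37],
   [61, 20],
   [36, 65, 28],
   [61, 6, 3],
   [41, 69, 22],
   [36, 33, 65],
   [61, 6, 64],
   [41, 71, 9],
   [36],
   [31, 41],
   [31, 61, 11],
   [36, 65, 8],
   [31, 41, 69],
   [61, 12],
   [36, 67, 7],
   [50],
   [41, 69, 18],
   [],
   [61, 6, 26],
   [36, 65, 26],
   [41, 34, 34],
   [61, 6],
   [36, 65],
   [42],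
   [41, 34, 71],
   [36, 32],
   [41, 71, 10],
   [36, 32, 38],
   [36, 67, 8],
   [41, 71, 22],
   [36, 56],
   [36, 32, 37],
   [31, 36, 33],
   [36, 67, 26],
   [31, 41, 34],
   [61, 6, 2],
   [36, 67],
   [31, 61],
   [31, 41, 71],
   [36, 32, 32],
   [41, 34, 52],
   [41, 71, 18],
   [41, 34, 40],
   [31, 61, 20],
   [36, 33, 46],
   [36, 32, 56],
   [31, 36],
   [31, 31, 41],
   [36, 32, 67],
   [61, 14],
   [36, 65, 16],
   [31, 50],
   [31],
   [31, 61, 6],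
   [31, 36, 65],
   [44],
   [31, 36, 32],
   [36, 67, 16],
   [31, 36, 56],
   [31, 36, 67],
   [36, 32, 46],
   [31, 31, 61],
   [31, 31, 36],
   [31, 61, 14],
   [31, 31, 50],
   [31, 31],
   [31, 44],
   [31, 31, 31],
   [31, 31, 44]]

/-- Transitions between the paths from vertex 5. -/
def R5 : List (List (ℕ × ℕ × List ℕ)) :=
  [[],
   [],
   [],
   [],
   [],
   [],
   [],
   [(0,0,[6, 9]), (1,31,[5, 1]), (6,19,[]), (11,2,[]), (12,15,[]), (14,42,[3, 5, 5]), (20,9,[]), (60,17,[5]), (62,44,[4])],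
   [],
   [],
   [],
   [],
   [(34,29,[]), (35,5,[]), (39,11,[7, 9, 7, 9]), (40,44,[4]), (48,50,[5]), (52,43,[5]), (54,27,[]), (69,14,[]), (71,32,[])],
   [(4,30,[]), (5,6,[]), (9,19,[6, 9, 6, 9, 2, 5]), (10,31,[4]), (18,42,[5]), (22,33,[5]), (24,18,[]), (68,10,[]), (70,4,[])],
   [],
   [],
   [],
   [(30,3,[]), (31,44,[4]), (36,11,[]), (41,1,[]), (42,20,[]), (44,50,[5]), (50,16,[]), (61,7,[5]), (63,0,[])],
   [],
   [],
   [],
   [],
   [],
   [(34,39,[4]), (35,8,[]), (39,22,[]), (40,56,[]), (48,62,[]), (52,55,[5]), (54,37,[]), (69,25,[]), (71,41,[5])],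
   [],
   [],
   [],
   [],
   [],
   [],
   [],
   [(0,7,[2, 5]), (1,63,[1]), (6,47,[]), (11,13,[]), (12,42,[]), (14,81,[3, 5]), (20,33,[]), (60,44,[1]), (62,85,[0])],
   [],
   [(21,31,[4]), (23,13,[5]), (25,30,[6, 9]), (27,34,[7, 9]), (29,47,[5])],
   [],
   [],
   [],
   [],
   [(32,52,[]), (33,28,[]), (37,44,[4]), (38,39,[2, 5, 5, 1]), (46,91,[5, 1]), (56,55,[2, 5, 2, 5, 5]), (58,43,[5]), (65,49,[]), (67,61,[])],
   [(34,58,[]), (35,23,[]), (39,38,[3, 3, 9, 5]), (40,85,[0]), (48,91,[1]), (52,83,[1]), (54,55,[]), (69,41,[]), (71,64,[])],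
   [(4,59,[]), (5,24,[]), (9,47,[6, 9, 2, 5, 5]), (10,63,[4]), (18,81,[5]), (22,69,[5]), (24,45,[]), (68,35,[]), (70,21,[])],
   [(4,64,[5]), (5,25,[7, 9]), (9,51,[]), (10,66,[]), (18,84,[]), (22,72,[]), (24,48,[]), (68,39,[4]), (70,23,[5])],
   [(13,31,[4]), (15,7,[2, 9, 5]), (17,19,[6, 9, 2, 5]), (19,13,[5])],
   [(51,44,[4]), (53,12,[5]), (55,29,[7, 9]), (57,28,[6, 9]), (59,38,[5])],
   [(30,17,[]), (31,85,[0]), (36,38,[]), (41,12,[]), (42,50,[]), (44,91,[1]), (50,43,[]), (61,31,[1]), (63,7,[])],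
   [],
   [],
   [(2,60,[]), (3,34,[]), (7,31,[4]), (8,40,[7, 9, 3, 5, 5]), (16,81,[3, 9, 5]), (26,45,[3, 7, 9, 7, 9, 9]), (28,33,[5]), (64,36,[]), (66,26,[])],
   [],
   [],
   [(43,44,[4]), (45,17,[5]), (47,11,[7, 9]), (49,12,[5])],
   [],
   [],
   [],
   [],
   [(51,56,[6, 9]), (53,23,[5]), (55,39,[4]), (57,38,[3, 9, 3, 9, 5]), (59,52,[7, 9, 3, 5, 3, 5])],
   [],
   [(32,76,[4]), (33,46,[]), (37,68,[]), (38,58,[3, 5, 3, 9, 5]), (46,112,[]), (56,83,[5, 1]), (58,67,[]), (65,73,[]), (67,90,[5])],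
   [(34,88,[]), (35,39,[4]), (39,57,[2, 5, 2, 9, 5]), (40,110,[]), (48,112,[2, 5, 6, 9, 2, 5]), (52,108,[]), (54,83,[5, 1]), (69,64,[5]), (71,92,[])],
   [],
   [],
   [],
   [],
   [(0,31,[1]), (1,105,[3, 5]), (6,89,[]), (11,40,[]), (12,81,[]), (14,117,[]), (20,69,[]), (60,85,[0]), (62,120,[1])],
   [(4,92,[6, 9]), (5,41,[5]), (9,75,[]), (10,94,[]), (18,109,[]), (22,97,[]), (24,72,[7, 9]), (68,58,[5]), (70,39,[4])],
   [],
   [],
   [],
   [],
   [(21,63,[4]), (23,40,[5]), (25,59,[6, 9]), (27,71,[7, 9]), (29,89,[5])],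
   [],
   [],
   [],
   [],
   [],
   [],
   [(32,93,[]), (33,57,[]), (37,85,[0]), (38,77,[2, 2, 9, 5]), (46,123,[1]), (56,98,[]), (58,83,[1]), (65,90,[]), (67,104,[])],
   [(34,102,[]), (35,53,[]), (39,76,[3, 5, 5, 1]), (40,120,[4]), (48,123,[5, 1]), (52,119,[5]), (54,98,[3, 5, 3, 5, 5]), (69,80,[]), (71,106,[])],
   [],
   [],
   [],
   [(13,63,[4]), (15,31,[5, 1]), (17,47,[2, 5, 5]), (19,40,[5])],
   [],
   [(51,85,[0]), (53,39,[1]), (55,58,[3, 5]), (57,57,[2, 5]), (59,76,[1])],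
   [],
   [(30,44,[]), (31,120,[]), (36,76,[]), (41,39,[]), (42,91,[]), (44,123,[]), (50,83,[]), (61,63,[]), (63,31,[])],
   [],
   [],
   [],
   [(2,103,[]), (3,71,[]), (7,63,[4]), (8,78,[7, 9, 7, 9, 3, 5]), (16,117,[5]), (26,86,[]), (28,69,[5]), (64,74,[]), (66,54,[])],
   [(2,104,[5]), (3,73,[7, 9]), (7,65,[]), (8,79,[]), (16,118,[]), (26,87,[]), (28,70,[]), (64,76,[4]), (66,57,[5])],
   [(43,85,[0]), (45,44,[1]), (47,38,[3, 5]), (49,39,[1])],
   [],
   [(32,107,[]), (33,76,[4]), (37,99,[]), (38,95,[]), (46,128,[]), (56,113,[]), (58,98,[5]), (65,104,[5]), (67,116,[])],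
   [],
   [],
   [],
   [],
   [(51,99,[7, 9]), (53,53,[6, 9, 2, 5, 2, 5]), (55,77,[2, 9, 2, 9, 5]), (57,76,[4]), (59,93,[5])],
   [],
   [],
   [],
   [],
   [],
   [(2,116,[6, 9]), (3,90,[5]), (7,82,[]), (8,96,[]), (16,125,[]), (26,101,[]), (28,87,[7, 9]), (64,93,[5]), (66,76,[4])],
   [(0,63,[5, 1]), (1,129,[7, 9]), (6,121,[]), (11,78,[]), (12,117,[2, 5, 5]), (14,131,[]), (20,111,[]), (60,120,[4]), (62,133,[5])],
   [],
   [],
   [],
   [],
   [],
   [],
   [],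
   [],
   [(32,124,[]), (33,100,[]), (37,120,[4]), (38,115,[6, 9, 6, 9]), (46,134,[5]), (56,126,[]), (58,119,[5]), (65,122,[]), (67,127,[])],
   [],
   [],
   [(13,105,[3, 9, 5]), (15,63,[4]), (17,89,[5]), (19,78,[7, 9, 3, 5])],
   [],
   [(51,120,[4]), (53,77,[5]), (55,102,[7, 9]), (57,100,[6, 9]), (59,114,[5])],
   [(30,85,[0]), (31,133,[]), (36,114,[]), (41,77,[]), (42,123,[1]), (44,134,[]), (50,119,[]), (61,105,[]), (63,63,[1])],
   [],
   [],
   [(43,120,[1]), (45,85,[0]), (47,76,[1]), (49,77,[2, 5])],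
   [],
   [],
   [],
   [],
   [],
   [],
   [],
   [],
   [],
   [(30,120,[4]), (31,135,[]), (36,130,[]), (41,115,[]), (42,134,[5]), (44,136,[]), (50,132,[]), (61,129,[]), (63,105,[5])],
   [(43,133,[5]), (45,120,[4]), (47,114,[5]), (49,115,[6, 9])],
   [],
   []]

/-- Representatives of the paths from vertex 6. -/
def S6 : List (List ℕ) :=
  [[37, 30, 63],
   [37, 30, 41],
   [37, 63, 11],
   [37, 30, 30],
   [33, 37, 63],
   [37, 41, 35],
   [33, 37, 41],
   [37, 63],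
   [65, 7, 0],
   [38, 35, 35],
   [33, 37, 30],
   [37, 63, 20],
   [33, 33, 33],
   [37, 30, 36],
   [37, 41],
   [37, 61, 11],
   [65, 7, 11],
   [32, 37, 63],
   [37, 41, 69],
   [37, 63, 12],
   [67, 7, 0],
   [37, 30, 50],
   [37, 30],
   [33, 33],
   [33, 33, 38],
   [37, 63, 6],
   [37, 30, 42],
   [33, 37, 61],
   [33, 65, 7],
   [65, 8, 70],
   [38, 35, 39],
   [38, 35],
   [33, 33, 58],
   [33, 33, 37],
   [65, 8, 5],
   [33, 65, 28],
   [38, 35, 69],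
   [33, 33, 65],
   [37, 41, 54],
   [32, 37, 30],
   [33],
   [33, 38],
   [33, 65, 8],
   [37, 61],
   [33, 38, 69],
   [65, 7],
   [67, 8, 70],
   [32, 38, 35],
   [33, 58],
   [33, 37],
   [37, 61, 20],
   [67, 8, 5],
   [65, 28],
   [33, 65],
   [33, 37, 42],
   [38, 35, 54],
   [65, 8, 68],
   [],
   [38],
   [65, 8],
   [32, 37, 61],
   [38, 69],
   [37, 61, 12],
   [67, 7],
   [65, 7, 12],
   [58],
   [37],
   [65, 7, 60],
   [65, 26],
   [33, 38, 34],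
   [37, 61, 6],
   [38, 69, 24],
   [65],
   [37, 42],
   [33, 38, 71],
   [38, 69, 9],
   [67, 8, 68],
   [32],
   [32, 38],
   [67, 8],
   [32, 38, 69],
   [32, 67, 7],
   [33, 33, 46],
   [67, 7, 12],
   [56],
   [32, 37],
   [38, 34, 39],
   [67, 7, 60],
   [67, 26],
   [38, 34],
   [65, 8, 4],
   [67],
   [32, 37, 42],
   [37, 31, 61],
   [38, 71],
   [65, 7, 1],
   [32, 32],
   [33, 65, 16],
   [38, 69, 10],
   [32, 32, 38],
   [33, 38, 52],
   [33, 37, 31],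
   [32, 67, 8],
   [65, 8, 22],
   [38, 69, 22],
   [33, 46],
   [32, 56],
   [38, 71, 9],
   [32, 32, 37],
   [37, 31, 36],
   [32, 67, 26],
   [32, 38, 34],
   [67, 8, 4],
   [32, 67],
   [32, 38, 71],
   [37, 61, 14],
   [67, 7, 1],
   [32, 32, 32],
   [65, 16],
   [38, 52],
   [38, 69, 18],
   [37, 31],
   [65, 7, 62],
   [67, 8, 22],
   [38, 34, 34],
   [46],
   [32, 32, 56],
   [38, 34, 71],
   [38, 71, 10],
   [32, 32, 67],
   [38, 71, 22],
   [67, 16],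
   [32, 38, 52],
   [32, 37, 31],
   [67, 7, 62],
   [32, 46],
   [38, 34, 52],
   [38, 71, 18],
   [38, 34, 40],
   [38, 34, 48],
   [32, 67, 16],
   [32, 32, 46],
   [37, 31, 31],
   [37, 31, 44]]

/-- Transitions between the paths from vertex 6. -/
def R6 : List (List (ℕ × ℕ × List ℕ)) :=
  [[],
   [],
   [],
   [],
   [],
   [],
   [],
   [(0,0,[6, 9]), (1,43,[5]), (6,25,[]), (11,2,[]), (12,19,[]), (14,62,[7, 9]), (20,11,[]), (60,22,[5]), (62,66,[4])],
   [],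
   [],
   [],
   [],
   [],
   [],
   [(34,41,[2, 5, 2, 9, 5]), (35,5,[]), (39,13,[7, 9, 7, 9]), (40,66,[4]), (48,73,[5]), (52,65,[5, 1]), (54,38,[]), (69,18,[]), (71,44,[2, 5, 6, 9, 2, 5])],
   [],
   [],
   [],
   [],
   [],
   [],
   [],
   [(30,3,[]), (31,66,[4]), (36,13,[]), (41,1,[]), (42,26,[]), (44,73,[5]), (50,21,[]), (61,7,[5]), (63,0,[])],
   [(32,40,[4]), (33,12,[]), (37,33,[]), (38,24,[]), (46,82,[]), (56,48,[5]), (58,32,[]), (65,37,[]), (67,53,[5])],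
   [],
   [],
   [],
   [],
   [],
   [],
   [],
   [(34,58,[4]), (35,9,[]), (39,30,[]), (40,85,[3, 5, 3, 9, 5]), (48,92,[3, 5, 7, 9, 3, 5]), (52,84,[5, 1]), (54,55,[]), (69,36,[]), (71,61,[5])],
   [],
   [],
   [],
   [],
   [],
   [],
   [],
   [],
   [(32,57,[0]), (33,23,[]), (37,49,[]), (38,41,[]), (46,105,[]), (56,65,[1]), (58,48,[]), (65,53,[]), (67,72,[1])],
   [(34,69,[]), (35,14,[3, 5, 3, 9, 5]), (39,40,[4]), (40,101,[6, 9, 6, 9]), (48,105,[5]), (52,100,[]), (54,65,[5, 1]), (69,44,[]), (71,74,[])],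
   [],
   [(0,7,[5]), (1,93,[7, 9]), (6,70,[]), (11,15,[]), (12,62,[]), (14,115,[]), (20,50,[]), (60,66,[4]), (62,121,[5])],
   [],
   [(0,8,[]), (1,95,[]), (6,72,[4]), (11,16,[]), (12,64,[]), (14,118,[5]), (20,52,[5]), (60,67,[]), (62,122,[])],
   [],
   [],
   [(51,49,[5]), (53,6,[7, 9]), (55,24,[6, 9]), (57,23,[5]), (59,40,[4])],
   [(30,10,[]), (31,101,[]), (36,40,[4]), (41,6,[]), (42,54,[]), (44,105,[5]), (50,48,[5]), (61,27,[]), (63,4,[])],
   [],
   [],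
   [(21,45,[5]), (23,16,[6, 9]), (25,42,[7, 9, 3, 5]), (27,53,[3, 9, 5]), (29,72,[4])],
   [(2,72,[5, 1]), (3,37,[7, 9]), (7,28,[]), (8,42,[]), (16,97,[]), (26,52,[2, 5, 5]), (28,35,[]), (64,40,[4]), (66,23,[5])],
   [],
   [],
   [],
   [(32,77,[]), (33,40,[]), (37,66,[]), (38,58,[]), (46,125,[]), (56,84,[]), (58,65,[]), (65,72,[]), (67,91,[])],
   [(34,89,[]), (35,31,[]), (39,57,[0]), (40,121,[2, 2, 9, 5]), (48,125,[1]), (52,119,[]), (54,84,[1]), (69,61,[]), (71,94,[])],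
   [(4,90,[]), (5,34,[]), (9,72,[4]), (10,95,[7, 9, 7, 9]), (18,118,[5]), (22,103,[]), (24,68,[5]), (68,56,[]), (70,29,[])],
   [],
   [(4,94,[5]), (5,36,[7, 9]), (9,75,[]), (10,98,[]), (18,120,[]), (22,104,[]), (24,71,[]), (68,58,[4]), (70,31,[5])],
   [],
   [(0,20,[]), (1,116,[]), (6,91,[4]), (11,34,[7, 9, 3, 5, 7, 9]), (12,83,[]), (14,131,[5]), (20,68,[3, 9, 5]), (60,87,[]), (62,134,[])],
   [],
   [(51,66,[1]), (53,14,[3, 5]), (55,41,[2, 5]), (57,40,[1]), (59,57,[0])],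
   [(30,22,[]), (31,121,[]), (36,57,[0]), (41,14,[]), (42,73,[]), (44,125,[1]), (50,65,[1]), (61,43,[]), (63,7,[])],
   [],
   [(21,63,[2, 5, 5]), (23,34,[7, 9]), (25,59,[5]), (27,72,[4]), (29,91,[5, 1])],
   [],
   [],
   [],
   [(2,91,[1]), (3,53,[3, 5]), (7,45,[]), (8,59,[]), (16,118,[]), (26,68,[]), (28,52,[]), (64,57,[0]), (66,40,[1])],
   [(43,66,[4]), (45,22,[5]), (47,13,[7, 9]), (49,14,[5])],
   [],
   [],
   [],
   [(32,96,[]), (33,57,[0]), (37,85,[]), (38,78,[]), (46,135,[]), (56,106,[]), (58,84,[1]), (65,91,[1]), (67,113,[])],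
   [(34,111,[]), (35,47,[]), (39,77,[4]), (40,133,[6, 9, 6, 9]), (48,135,[5]), (52,132,[]), (54,106,[5]), (69,80,[]), (71,114,[])],
   [(4,112,[]), (5,51,[]), (9,91,[4]), (10,116,[7, 9, 7, 9]), (18,131,[5]), (22,123,[]), (24,88,[5]), (68,76,[]), (70,46,[])],
   [],
   [],
   [],
   [],
   [(51,85,[3, 5]), (53,31,[2, 5]), (55,58,[1]), (57,57,[0]), (59,77,[1])],
   [(30,39,[]), (31,133,[]), (36,77,[4]), (41,31,[2, 5, 2, 9, 5]), (42,92,[]), (44,135,[5]), (50,84,[5, 1]), (61,60,[]), (63,17,[])],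
   [],
   [],
   [(21,81,[6, 9, 2, 5]), (23,51,[7, 9]), (25,79,[5]), (27,91,[4]), (29,113,[2, 9, 5])],
   [(34,124,[]), (35,58,[4]), (39,86,[]), (40,138,[]), (48,139,[]), (52,136,[]), (54,119,[5]), (69,94,[5]), (71,127,[])],
   [],
   [(2,113,[2, 5]), (3,72,[1]), (7,63,[]), (8,79,[]), (16,131,[]), (26,88,[]), (28,68,[3, 5]), (64,77,[1]), (66,57,[0])],
   [],
   [],
   [(4,127,[6, 9]), (5,61,[5]), (9,107,[]), (10,128,[]), (18,137,[]), (22,130,[]), (24,104,[7, 9]), (68,89,[5]), (70,58,[4])],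
   [],
   [(32,117,[]), (33,77,[4]), (37,108,[]), (38,99,[]), (46,141,[]), (56,126,[]), (58,106,[5]), (65,113,[5]), (67,129,[])],
   [],
   [],
   [],
   [],
   [],
   [],
   [],
   [],
   [(43,101,[6, 9]), (45,49,[5]), (47,40,[4]), (49,41,[5])],
   [(51,108,[7, 9]), (53,47,[6, 9]), (55,78,[5]), (57,77,[4]), (59,96,[5])],
   [],
   [],
   [],
   [],
   [],
   [],
   [(2,129,[6, 9]), (3,91,[5, 1]), (7,81,[]), (8,102,[]), (16,140,[]), (26,110,[]), (28,88,[3, 5, 5]), (64,96,[5]), (66,77,[4])],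
   [],
   [],
   [],
   [],
   [(13,95,[7, 9]), (15,45,[5]), (17,72,[4]), (19,59,[5])],
   [(51,121,[2, 9, 2, 9, 5]), (53,58,[4]), (55,89,[5]), (57,86,[7, 9]), (59,109,[6, 9, 2, 5, 2, 5])],
   [],
   [(30,66,[4]), (31,142,[]), (36,109,[]), (41,58,[3, 5, 5, 1]), (42,125,[5, 1]), (44,143,[]), (50,119,[3, 5, 3, 5, 5]), (61,93,[]), (63,43,[5])],
   [],
   [],
   [],
   [(43,121,[2, 5]), (45,66,[1]), (47,57,[0]), (49,58,[1])],
   [],
   [],
   [],
   [],
   [],
   [(13,116,[7, 9]), (15,63,[5]), (17,91,[4]), (19,79,[5])],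
   [],
   [],
   [],
   [(43,133,[6, 9]), (45,85,[5]), (47,77,[4]), (49,78,[5])],
   [],
   [],
   [],
   [],
   [],
   [],
   [],
   []]

/-- Representatives of the paths from vertex 7. -/
def S7 : List (List ℕ) :=
  [[35, 35, 35],
   [39, 37, 63],
   [35, 35, 39],
   [35, 35],
   [35, 35, 69],
   [35, 39, 33],
   [39, 37, 41],
   [40, 63, 11],
   [35, 40, 63],
   [39, 37, 30],
   [39, 33, 33],
   [35, 35, 54],
   [35, 39],
   [35],
   [35, 69],
   [35, 39, 58],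
   [35, 39, 37],
   [39, 33],
   [39, 33, 38],
   [69, 9, 66],
   [35, 69, 24],
   [35, 39, 65],
   [40, 63],
   [35, 69, 9],
   [39, 65, 7],
   [35, 39, 32],
   [69, 9, 7],
   [39, 33, 58],
   [39, 33, 37],
   [40, 63, 20],
   [39, 65, 28],
   [69, 9, 28],
   [39, 33, 65],
   [35, 54],
   [69, 9, 3],
   [35, 35, 40],
   [39],
   [],
   [40, 61, 11],
   [69, 9, 64],
   [39, 65, 8],
   [35, 39, 67],
   [35, 35, 48],
   [35, 40, 61],
   [69],
   [40, 63, 12],
   [39, 67, 7],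
   [35, 69, 10],
   [39, 58],
   [39, 37],
   [34, 39, 33],
   [39, 65, 26],
   [40, 63, 6],
   [71, 9, 66],
   [69, 24],
   [39, 65],
   [39, 37, 42],
   [34, 40, 63],
   [69, 9],
   [39, 32],
   [71, 9, 7],
   [39, 32, 38],
   [39, 67, 8],
   [71, 9, 28],
   [54],
   [71, 9, 3],
   [35, 69, 18],
   [35, 40],
   [34, 39],
   [39, 67, 26],
   [34],
   [71, 9, 64],
   [39, 67],
   [35, 48],
   [40, 61],
   [71],
   [69, 9, 2],
   [39, 32, 32],
   [69, 10],
   [34, 39, 58],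
   [34, 39, 37],
   [40, 61, 20],
   [69, 22],
   [34, 39, 65],
   [39, 33, 46],
   [39, 32, 56],
   [71, 9],
   [40, 36],
   [40, 31, 41],
   [39, 32, 67],
   [40, 61, 12],
   [39, 65, 16],
   [52],
   [69, 18],
   [40],
   [34, 34, 39],
   [34, 34],
   [40, 61, 6],
   [69, 10, 60],
   [34, 39, 67],
   [48],
   [34, 40, 61],
   [34, 71],
   [69, 10, 6],
   [40, 36, 32],
   [71, 10],
   [71, 22],
   [39, 67, 16],
   [40, 36, 56],
   [34, 71, 9],
   [35, 40, 31],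
   [34, 40, 36],
   [40, 36, 67],
   [35, 40, 44],
   [40, 31, 61],
   [69, 10, 1],
   [34, 52],
   [71, 18],
   [34, 40],
   [34, 34, 34],
   [71, 10, 60],
   [34, 48],
   [34, 34, 71],
   [71, 10, 6],
   [40, 31, 36],
   [34, 71, 10],
   [40, 61, 14],
   [34, 71, 22],
   [40, 31, 50],
   [69, 10, 14],
   [40, 31],
   [69, 10, 62],
   [40, 44],
   [71, 10, 1],
   [34, 34, 52],
   [34, 71, 18],
   [34, 34, 40],
   [34, 34, 48],
   [71, 10, 14],
   [34, 40, 31],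
   [71, 10, 62],
   [34, 40, 44],
   [40, 31, 31],
   [40, 31, 44]]

/-- Transitions between the paths from vertex 7. -/
def R7 : List (List (ℕ × ℕ × List ℕ)) :=
  [[],
   [],
   [],
   [(34,13,[4]), (35,0,[]), (39,2,[]), (40,35,[]), (48,42,[]), (52,33,[5]), (54,11,[]), (69,4,[]), (71,14,[5])],
   [],
   [],
   [],
   [],
   [],
   [],
   [],
   [],
   [(32,25,[]), (33,5,[]), (37,16,[]), (38,13,[4]), (46,73,[5]), (56,33,[5]), (58,15,[]), (65,21,[]), (67,41,[])],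
   [(34,37,[0]), (35,3,[]), (39,12,[]), (40,67,[]), (48,73,[]), (52,64,[1]), (54,33,[]), (69,14,[]), (71,44,[1])],
   [(4,44,[5, 1]), (5,4,[7, 9]), (9,23,[]), (10,47,[]), (18,66,[]), (22,54,[2, 5, 5]), (24,20,[]), (68,13,[4]), (70,3,[5])],
   [],
   [],
   [(32,36,[4]), (33,10,[]), (37,28,[]), (38,18,[]), (46,84,[]), (56,48,[5]), (58,27,[]), (65,32,[]), (67,55,[5])],
   [],
   [],
   [],
   [],
   [(0,1,[6, 9, 2, 5, 2, 5]), (1,74,[5]), (6,52,[]), (11,7,[]), (12,45,[]), (14,90,[7, 9]), (20,29,[]), (60,49,[2, 9, 2, 9, 5]), (62,94,[4])],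
   [],
   [],
   [],
   [],
   [],
   [],
   [],
   [],
   [],
   [],
   [(51,35,[6, 9]), (53,3,[5]), (55,13,[4]), (57,12,[5]), (59,25,[7, 9])],
   [],
   [],
   [(32,59,[]), (33,17,[]), (37,49,[]), (38,37,[0]), (46,100,[1]), (56,64,[1]), (58,48,[]), (65,55,[]), (67,72,[])],
   [(34,70,[]), (35,13,[]), (39,36,[]), (40,94,[]), (48,100,[]), (52,92,[]), (54,64,[]), (69,44,[]), (71,75,[])],
   [],
   [],
   [],
   [],
   [],
   [],
   [(4,75,[1]), (5,14,[3, 5]), (9,58,[]), (10,78,[]), (18,93,[]), (22,82,[]), (24,54,[]), (68,37,[0]), (70,13,[1])],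
   [],
   [],
   [],
   [(51,49,[5]), (53,6,[7, 9]), (55,18,[6, 9]), (57,17,[5]), (59,36,[4])],
   [(30,9,[]), (31,94,[3, 5, 5, 1]), (36,36,[4]), (41,6,[]), (42,56,[]), (44,100,[5, 1]), (50,48,[5]), (61,22,[3, 5, 3, 5, 5]), (63,1,[])],
   [],
   [],
   [],
   [],
   [(21,47,[7, 9, 3, 5]), (23,14,[3, 9, 5]), (25,44,[4]), (27,58,[5]), (29,76,[6, 9])],
   [(2,72,[5]), (3,32,[7, 9]), (7,24,[]), (8,40,[]), (16,91,[]), (26,51,[]), (28,30,[]), (64,36,[4]), (66,17,[5])],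
   [],
   [],
   [(2,76,[]), (3,34,[]), (7,26,[]), (8,44,[4]), (16,93,[5]), (26,54,[5]), (28,31,[]), (64,39,[]), (66,19,[])],
   [(32,77,[]), (33,36,[4]), (37,67,[2, 5, 2, 9, 5]), (38,61,[]), (46,113,[2, 5, 6, 9, 2, 5]), (56,85,[]), (58,64,[5, 1]), (65,72,[5]), (67,89,[])],
   [],
   [],
   [],
   [],
   [(51,67,[2, 5]), (53,13,[1]), (55,37,[0]), (57,36,[1]), (59,59,[3, 5])],
   [],
   [],
   [(30,16,[6, 9, 6, 9]), (31,110,[]), (36,59,[3, 5, 3, 9, 5]), (41,13,[4]), (42,73,[5]), (44,113,[]), (50,64,[5, 1]), (61,43,[]), (63,8,[])],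
   [(32,87,[2, 5, 2, 9, 5]), (33,50,[]), (37,80,[]), (38,70,[4]), (46,121,[5]), (56,92,[5, 1]), (58,79,[]), (65,83,[]), (67,99,[])],
   [],
   [(34,96,[]), (35,37,[0]), (39,68,[]), (40,118,[]), (48,121,[]), (52,116,[]), (54,92,[1]), (69,75,[1]), (71,102,[])],
   [],
   [(2,89,[6, 9]), (3,55,[5]), (7,46,[]), (8,62,[]), (16,107,[]), (26,69,[]), (28,51,[7, 9]), (64,59,[5]), (66,36,[4])],
   [(43,67,[5]), (45,16,[6, 9]), (47,12,[5]), (49,13,[4])],
   [(0,22,[5]), (1,114,[7, 9]), (6,97,[]), (11,38,[]), (12,90,[]), (14,126,[]), (20,81,[]), (60,94,[4]), (62,130,[5])],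
   [(4,102,[2, 5]), (5,44,[1]), (9,86,[]), (10,105,[]), (18,117,[]), (22,106,[]), (24,82,[3, 5]), (68,70,[1]), (70,37,[0])],
   [],
   [],
   [(0,26,[7, 9, 7, 9]), (1,115,[]), (6,103,[]), (11,44,[4]), (12,93,[5]), (14,129,[]), (20,82,[5]), (60,98,[]), (62,131,[])],
   [],
   [],
   [],
   [(21,78,[5]), (23,44,[4]), (25,75,[5, 1]), (27,86,[2, 5, 5]), (29,103,[7, 9])],
   [],
   [],
   [],
   [(2,103,[7, 9, 3, 5, 7, 9]), (3,65,[]), (7,60,[]), (8,75,[4]), (16,117,[5]), (26,82,[3, 9, 5]), (28,63,[]), (64,71,[]), (66,53,[])],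
   [(32,104,[]), (33,68,[3, 5, 3, 9, 5]), (37,94,[4]), (38,88,[6, 9, 6, 9]), (46,132,[5]), (56,108,[]), (58,92,[5, 1]), (65,99,[3, 5, 7, 9, 3, 5]), (67,112,[])],
   [],
   [],
   [],
   [],
   [(51,94,[1]), (53,37,[0]), (55,70,[1]), (57,68,[3, 5]), (59,87,[2, 5])],
   [(13,78,[5]), (15,26,[7, 9]), (17,58,[5]), (19,44,[4])],
   [(30,49,[2, 2, 9, 5]), (31,130,[]), (36,87,[]), (41,37,[0]), (42,100,[1]), (44,132,[]), (50,92,[1]), (61,74,[]), (63,22,[])],
   [],
   [(34,119,[]), (35,70,[4]), (39,95,[]), (40,136,[]), (48,137,[]), (52,134,[]), (54,116,[5]), (69,102,[5]), (71,122,[])],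
   [],
   [],
   [],
   [(43,94,[1]), (45,49,[2, 5]), (47,36,[1]), (49,37,[0])],
   [],
   [(4,122,[6, 9]), (5,75,[5, 1]), (9,109,[]), (10,125,[]), (18,135,[]), (22,127,[]), (24,106,[3, 5, 5]), (68,96,[5]), (70,70,[4])],
   [],
   [],
   [(0,60,[7, 9, 7, 9]), (1,133,[]), (6,123,[]), (11,75,[4]), (12,117,[5]), (14,138,[]), (20,106,[5]), (60,120,[]), (62,140,[])],
   [(21,105,[5]), (23,75,[4]), (25,102,[2, 9, 5]), (27,109,[6, 9, 2, 5]), (29,123,[7, 9])],
   [],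
   [],
   [],
   [],
   [],
   [],
   [],
   [],
   [],
   [(51,118,[5]), (53,70,[4]), (55,96,[5]), (57,95,[7, 9]), (59,111,[6, 9])],
   [(13,105,[5]), (15,60,[7, 9]), (17,86,[5]), (19,75,[4])],
   [(30,80,[6, 9, 6, 9]), (31,139,[]), (36,111,[]), (41,70,[4]), (42,121,[5]), (44,141,[]), (50,116,[5]), (61,101,[]), (63,57,[])],
   [],
   [],
   [(43,118,[5]), (45,80,[6, 9]), (47,68,[5]), (49,70,[4])],
   [],
   [],
   [],
   [],
   [],
   [],
   [],
   [],
   [(30,94,[4]), (31,142,[]), (36,124,[]), (41,88,[]), (42,132,[5]), (44,143,[]), (50,128,[]), (61,114,[]), (63,74,[5])],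
   [],
   [(43,130,[5]), (45,94,[4]), (47,87,[5]), (49,88,[6, 9])],
   [],
   [],
   [],
   [],
   [],
   [],
   [],
   [],
   [],
   [],
   []]

end Pool.Agent.P8H65.Sncc
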