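import Mathlib

/-!
# Triangulations of closed oriented surfaces and shortest separating non-contractible cycles

Definitions used for problem MP_4a4360_co.
-/

namespace Pool.Agent.P8H65.Sncc

/-- A rooted triangulation of a closed connected oriented surface, presented by its oriented
edges.  `rev` reverses an oriented edge, `next` sends an oriented edge to the one following it
on the boundary of the (triangular) face on its left; the surface is obtained by gluing the
triangles `d, next d, next (next d)` along the sides `d ~ rev d`.  Loops and multiple edges are
allowed. -/
structure Triangulation where
  /-- the oriented edges -/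
  Dart : Type
  /-- there are finitely many oriented edges -/
  [fin : Fintype Dart]
  /-- equality of oriented edges is decidable -/
  [dec : DecidableEq Dart]
  /-- reversal of oriented edges -/
  rev : Equiv.Perm Dart
  /-- the following oriented edge on the boundary of the same face -/
  next : Equiv.Perm Dart
  /-- reversing twice does nothing -/
  rev_rev : ∀ d, rev (rev d) = d
  /-- an oriented edge differs from its reversal -/
  rev_ne : ∀ d, rev d ≠ d
  /-- every face has degree dividing 3 -/
  next_next_next : ∀ d, next (next (next d)) = d
  /-- no face has degree 1; together with the previous field, every face has degree 3 -/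
  next_ne : ∀ d, next d ≠ d
  /-- the surface is connected -/
  connected : ∀ d e : Dart, ∃ g ∈ Subgroup.closure ({rev, next} : Set (Equiv.Perm Dart)), g d = e
  /-- the distinguished oriented root edge -/
  root : Dart

attribute [instance] Triangulation.fin Triangulation.dec

namespace Triangulation

variable (T : Triangulation)

/-- Two oriented edges have the same tail: the oriented edges with a given tail form one cycle of
the permutation `d ↦ next (rev d)`, which rotates around the tail of `d`. -/
def SameTail (d e : T.Dart) : Prop := (T.next * T.rev).SameCycle d e

/-- The head of `d` is the tail of `e` (the head of `d` is the tail of `rev d`). -/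
def Follows (d e : T.Dart) : Prop := T.SameTail (T.rev d) e

/-- A path: a sequence of at least one oriented edge, the head of each being the tail of the
next. -/
def IsPath (p : List T.Dart) : Prop := p ≠ [] ∧ p.IsChain T.Follows

/-- A cycle: a path whose last edge ends where its first edge starts. -/
def IsCycle (c : List T.Dart) : Prop :=
  ∃ d p, c = d :: p ∧ (d :: p ++ [d]).IsChain T.Follows

/-- A simple cycle: the tails of its edges are pairwise distinct vertices. -/
def IsSimpleCycle (c : List T.Dart) : Prop :=
  T.IsCycle c ∧ c.Pairwise fun d e => ¬ T.SameTail d e

/-- Elementary homotopies between cycles (the empty list stands for a constant curve): removing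
a backtrack `d, rev d`, removing the boundary `d, next d, next (next d)` of a face, and
changing the starting point of the cycle. -/
inductive Move : List T.Dart → List T.Dart → Prop
  | backtrack (u v : List T.Dart) (d : T.Dart) (h : T.IsCycle (u ++ [d, T.rev d] ++ v)) :
      Move (u ++ [d, T.rev d] ++ v) (u ++ v)
  | face (u v : List T.Dart) (d : T.Dart)
      (h : T.IsCycle (u ++ [d, T.next d, T.next (T.next d)] ++ v)) :
      Move (u ++ [d, T.next d, T.next (T.next d)] ++ v) (u ++ v)
  | rotate (d : T.Dart) (u : List T.Dart) (h : T.IsCycle (d :: u)) :
      Move (d :: u) (u ++ [d])

/-- A cycle is contractible if it is freely homotopic to a constant curve, that is, if it can be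
turned into the empty list by elementary homotopies and their inverses. -/
def Contractible (c : List T.Dart) : Prop := Relation.EqvGen T.Move c []

/-- A cycle is separating if it is null-homologous over the integers: it is the boundary of the
2-chain giving the face on the left of `d` the weight `n d`.  (The coefficient of a cycle on an
oriented edge `d` is the number of its passages along `d` minus that along `rev d`.) -/
def Separating (c : List T.Dart) : Prop :=
  ∃ n : T.Dart → ℤ, (∀ d, n (T.next d) = n d) ∧
    ∀ d, (c.count d : ℤ) - c.count (T.rev d) = n d - n (T.rev d)

/-- A separating non-contractible cycle. -/
def IsSNCC (c : List T.Dart) : Prop := T.IsCycle c ∧ T.Separating c ∧ ¬ T.Contractible c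

/-- A shortest separating non-contractible cycle: one of least length among all of them. -/
def IsShortestSNCC (c : List T.Dart) : Prop :=
  T.IsSNCC c ∧ ∀ c', T.IsSNCC c' → c.length ≤ c'.length

end Triangulation

end Pool.Agent.P8H65.Sncc
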