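import Pool.Agent.P8H65.SnccData

/-!
# The counterexample
-/

namespace Pool.Agent.P8H65.Sncc

open Triangulation

theorem revF_revF : ∀ d, revF (revF d) = d := by decide +kernel
theorem revF_ne : ∀ d, revF d ≠ d := by decide +kernel
theorem nextF3 : ∀ d, nextF (nextF (nextF d)) = d := by decide +kernel
theorem nextF_ne : ∀ d, nextF d ≠ d := by decide +kernel

/-- Apply a word in the reversal and the face permutation. -/
def runW : List Bool → Fin 72 → Fin 72
  | [], d => d
  | true :: w, d => nextF (runW w d)
  | false :: w, d => revF (runW w d)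

theorem words_ok : ∀ d : Fin 72, runW (wordsF.getD d.1 []) 0 = d := by decide +kernel

/-- Reversal as a permutation. -/
def revP : Equiv.Perm (Fin 72) := ⟨revF, revF, revF_revF, revF_revF⟩

/-- The face permutation. -/
def nextP : Equiv.Perm (Fin 72) := ⟨nextF, fun d => nextF (nextF d), nextF3, nextF3⟩

theorem runW_mem (w : List Bool) : ∃ g ∈ Subgroup.closure ({revP, nextP} : Set (Equiv.Perm (Fin 72))),
    ∀ d, g d = runW w d := by
  induction w with
  | nil => exact ⟨1, Subgroup.one_mem _, fun d => rfl⟩
  | cons b w ih =>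
      obtain ⟨g, hg, h⟩ := ih
      cases b with
      | true =>
          refine ⟨nextP * g, Subgroup.mul_mem _ (Subgroup.subset_closure (by simp)) hg, fun d => ?_⟩
          change nextF (g d) = nextF (runW w d)
          rw [h]
      | false =>
          refine ⟨revP * g, Subgroup.mul_mem _ (Subgroup.subset_closure (by simp)) hg, fun d => ?_⟩
          change revF (g d) = revF (runW w d)
          rw [h]

/-- The triangulation. -/
def ex : Triangulation where
  Dart := Fin 72
  rev := revP
  next := nextP
  rev_rev := revF_revF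
  rev_ne := revF_ne
  next_next_next := nextF3
  next_ne := nextF_ne
  connected := by
    intro d e
    obtain ⟨g, hg, h⟩ := runW_mem (wordsF.getD d.1 [])
    obtain ⟨g', hg', h'⟩ := runW_mem (wordsF.getD e.1 [])
    refine ⟨g' * g⁻¹, Subgroup.mul_mem _ hg' (Subgroup.inv_mem _ hg), ?_⟩
    have h1 : g 0 = d := by rw [h, words_ok]
    have h2 : g' 0 = e := by rw [h', words_ok]
    have h3 : g⁻¹ d = 0 := by
      rw [← h1]
      exact g.symm_apply_apply 0
    change g' (g⁻¹ d) = e
    rw [h3, h2]
  root := 0

theorem vtF_step : ∀ d : Fin 72, vtF (nextF (revF d)) = vtF d := by decide +kernel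

/-- The rotation around the tail. -/
def sigF (d : Fin 72) : Fin 72 := nextF (revF d)

theorem orbit_ok : ∀ d : Fin 72, ∃ k ∈ List.range 9, sigF^[k] (rpF (vtF d)) = d := by
  decide +kernel

theorem ex_sameTail (d e : ex.Dart) : ex.SameTail d e ↔ vtF d = vtF e := by
  have hstep : ∀ (x : Fin 72), (nextP * revP) x = sigF x := fun _ => rfl
  have hit : ∀ (k : ℕ) (x : Fin 72), ((nextP * revP) ^ k) x = sigF^[k] x := by
    intro k x
    rw [← Equiv.Perm.iterate_eq_pow]
    rfl
  constructor
  · rintro ⟨i, hi⟩
    have hpow : ∀ (k : ℕ) (x : Fin 72), vtF (((nextP * revP) ^ k) x) = vtF x := by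
      intro k
      induction k with
      | zero => intro x; rfl
      | succ k ih =>
          intro x
          rw [pow_succ, Equiv.Perm.mul_apply, ih]
          exact vtF_step x
    have hz : ∀ (i : ℤ) (x : Fin 72), vtF (((nextP * revP) ^ i) x) = vtF x := by
      intro i x
      cases i with
      | ofNat k => exact hpow k x
      | negSucc k =>
          have := hpow (k + 1) (((nextP * revP) ^ (Int.negSucc k)) x)
          rw [zpow_negSucc] at this ⊢
          have h5 : ((nextP * revP) ^ (k + 1)) ((((nextP * revP) ^ (k + 1))⁻¹) x) = x :=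
            ((nextP * revP) ^ (k + 1)).apply_symm_apply x
          rw [h5] at this
          exact this.symm
    rw [← hi]
    exact (hz i d).symm
  · intro h
    obtain ⟨k, -, hk⟩ := orbit_ok d
    obtain ⟨l, -, hl⟩ := orbit_ok e
    have h1 : ex.SameTail (rpF (vtF d)) d := ⟨(k : ℤ), by
      rw [zpow_natCast]
      exact (hit k _).trans hk⟩
    have h2 : ex.SameTail (rpF (vtF e)) e := ⟨(l : ℤ), by
      rw [zpow_natCast]
      exact (hit l _).trans hl⟩
    rw [← h] at h2
    exact Equiv.Perm.SameCycle.trans (Equiv.Perm.SameCycle.symm h1) h2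

theorem om_rev : ∀ d : Fin 72, omF (revF d) = - omF d := by decide +kernel
theorem om_next : ∀ d : Fin 72, omF d + omF (nextF d) + omF (nextF (nextF d)) = 0 := by
  decide +kernel

theorem hol_rev : ∀ d : Fin 72, holF d * holF (revF d) = 1 := by decide +kernel
theorem hol_next : ∀ d : Fin 72, holF d * holF (nextF d) * holF (nextF (nextF d)) = 1 := by
  decide +kernel

theorem hB : ∀ d : Fin 72, vtF d ∈ [0, 1, 2, 5, 6, 7] ∨ vtF (revF d) ∈ [0, 1, 2, 5, 6, 7] := by
  decide +kernel

/-- The list of all darts. -/
def allD : List (Fin 72) := (List.range 72).map toD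

theorem mem_allD : ∀ d : Fin 72, d ∈ allD := by decide +kernel

theorem table0 : tableOK revF nextF vtF omF allD 0 (toS S0) (toT R0) = true := by decide +kernel
theorem table1 : tableOK revF nextF vtF omF allD 1 (toS S1) (toT R1) = true := by decide +kernel
theorem table2 : tableOK revF nextF vtF omF allD 2 (toS S2) (toT R2) = true := by decide +kernel
theorem table5 : tableOK revF nextF vtF omF allD 5 (toS S5) (toT R5) = true := by decide +kernel
theorem table6 : tableOK revF nextF vtF omF allD 6 (toS S6) (toT R6) = true := by decide +kernel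
theorem table7 : tableOK revF nextF vtF omF allD 7 (toS S7) (toT R7) = true := by decide +kernel

theorem ex_good : ∀ v ∈ [0, 1, 2, 5, 6, 7], Good (T := ex) vtF omF v := by
  intro v hv
  simp only [List.mem_cons, List.not_mem_nil, or_false] at hv
  rcases hv with rfl | rfl | rfl | rfl | rfl | rfl
  · exact good_of_table (T := ex) vtF ex_sameTail allD mem_allD table0
  · exact good_of_table (T := ex) vtF ex_sameTail allD mem_allD table1
  · exact good_of_table (T := ex) vtF ex_sameTail allD mem_allD table2
  · exact good_of_table (T := ex) vtF ex_sameTail allD mem_allD table5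
  · exact good_of_table (T := ex) vtF ex_sameTail allD mem_allD table6
  · exact good_of_table (T := ex) vtF ex_sameTail allD mem_allD table7

theorem ex_short {c : List ex.Dart} (hc : ex.IsCycle c) (hs : ex.Separating c)
    (hl : c.length ≤ 6) : ex.Contractible c :=
  contractible_of_short (T := ex) vtF ex_sameTail om_rev om_next _ hB ex_good hc hs hl

/-- The simple loop. -/
def gam : List ex.Dart := [(0 : Fin 72)]

/-- The rest of the cycle. -/
def rest : List ex.Dart := [(6 : Fin 72), (2 : Fin 72), (8 : Fin 72), (4 : Fin 72), (10 : Fin 72)]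

theorem gam_simple : ex.IsSimpleCycle gam := by
  constructor
  · rw [isCycle_iff vtF ex_sameTail]
    refine ⟨by simp [gam], 0, ?_⟩
    unfold W
    decide +kernel
  · exact List.pairwise_singleton _ _

theorem rest_path : ex.IsPath rest := by
  constructor
  · simp [rest]
  · refine (chain_iff (T := ex) vtF ex_sameTail (d := (6 : Fin 72)) (e := (10 : Fin 72))
      (p := [(2 : Fin 72), (8 : Fin 72), (4 : Fin 72)])).2 ?_
    unfold W
    decide +kernel

theorem C_sncc : ex.IsSNCC (gam ++ gam ++ rest) := by
  refine ⟨?_, ?_, ?_⟩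
  · rw [isCycle_iff vtF ex_sameTail]
    refine ⟨by simp [gam], 0, ?_⟩
    unfold W
    decide +kernel
  · refine ⟨wtF, ?_, ?_⟩
    · change ∀ d : Fin 72, wtF (nextF d) = wtF d
      decide +kernel
    · change ∀ d : Fin 72, (([0, 0, 6, 2, 8, 4, 10] : List (Fin 72)).count d : ℤ)
        - ([0, 0, 6, 2, 8, 4, 10] : List (Fin 72)).count (revF d) = wtF d - wtF (revF d)
      decide +kernel
  · intro h
    have h1 := prod_eq_one_of_contractible (T := ex) (g := holF) hol_rev hol_next h
    have h2 : (([0, 0, 6, 2, 8, 4, 10] : List (Fin 72)).map holF).prod ≠ 1 := by decide +kernel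
    exact h2 h1

theorem C_shortest : ex.IsShortestSNCC (gam ++ gam ++ rest) := by
  refine ⟨C_sncc, fun c' hc' => ?_⟩
  by_contra hlt
  have h7 : (gam ++ gam ++ rest).length = 7 := rfl
  exact hc'.2.2 (ex_short hc'.1 hc'.2.1 (by omega))

end Pool.Agent.P8H65.Sncc
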