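import Pool.Agent.P8H65.SnccDefs

/-!
# Homotopies of edge paths in a triangulation with labelled vertices
-/

namespace Pool.Agent.P8H65.Sncc

open Triangulation

section walks

variable {D : Type} [DecidableEq D] (rv nx : D → D) (vt : D → ℕ)

/-- The end vertex of the walk `l` started at `x`, if `l` is such a walk. -/
def endv : ℕ → List D → Option ℕ
  | x, [] => some x
  | x, d :: l => if vt d = x then endv (vt (rv d)) l else none

/-- One elementary rewriting step on a list of darts, coded by a number. -/
def applyMv (m : ℕ) (L : List D) : List D :=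
  match m % 4, L.drop (m / 4) with
  | 0, d :: e :: t => if e = rv d then L.take (m / 4) ++ t else L
  | 1, d :: e :: t =>
      if e = nx d then L.take (m / 4) ++ rv (nx e) :: t
      else if rv d = nx (rv e) then L.take (m / 4) ++ nx (rv d) :: t else L
  | 2, f :: t => L.take (m / 4) ++ nx (rv f) :: nx (nx (rv f)) :: t
  | 3, f :: t => L.take (m / 4) ++ rv (nx (nx f)) :: rv (nx f) :: t
  | _, _ => L

/-- Several rewriting steps. -/
def runMv : List ℕ → List D → List D
  | [], L => L
  | m :: ms, L => runMv ms (applyMv rv nx m L)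

end walks

variable {T : Triangulation} (vt : T.Dart → ℕ)

/-- `l` is a walk from the vertex `x` to the vertex `y`. -/
def W (x y : ℕ) (l : List T.Dart) : Prop := endv T.rev vt x l = some y

theorem W_nil {x y : ℕ} : W vt x y [] ↔ x = y := by
  simp [W, endv]

theorem W_cons {x y : ℕ} {d : T.Dart} {l : List T.Dart} :
    W vt x y (d :: l) ↔ vt d = x ∧ W vt (vt (T.rev d)) y l := by
  unfold W
  rw [endv]
  split_ifs with h
  · simp [h]
  · simp [h]

theorem W_append {x y : ℕ} {p q : List T.Dart} :
    W vt x y (p ++ q) ↔ ∃ z, W vt x z p ∧ W vt z y q := by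
  induction p generalizing x with
  | nil => simp [W_nil]
  | cons d p ih =>
      rw [List.cons_append, W_cons, ih]
      constructor
      · rintro ⟨h, z, h1, h2⟩
        exact ⟨z, (W_cons vt).2 ⟨h, h1⟩, h2⟩
      · rintro ⟨z, h1, h2⟩
        rw [W_cons] at h1
        exact ⟨h1.1, z, h1.2, h2⟩

variable (hv : ∀ d e, T.SameTail d e ↔ vt d = vt e)

include hv

theorem chain_iff {d e : T.Dart} {p : List T.Dart} :
    (d :: p ++ [e]).IsChain T.Follows ↔ W vt (vt d) (vt e) (d :: p) := by
  induction p generalizing d with
  | nil =>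
      simp [W_cons, W_nil, Triangulation.Follows, hv]
  | cons f p ih =>
      have : (d :: f :: p ++ [e]) = d :: (f :: p ++ [e]) := rfl
      rw [this]
      have h2 : (f :: p ++ [e]) = f :: (p ++ [e]) := rfl
      rw [h2, List.isChain_cons_cons, ← h2, ih]
      rw [W_cons, W_cons, W_cons]
      simp only [Triangulation.Follows, hv, true_and]
      constructor
      · rintro ⟨h, h'⟩
        exact ⟨h.symm, h'⟩
      · rintro ⟨h, h'⟩
        exact ⟨h.symm, h'⟩

theorem isCycle_iff {c : List T.Dart} :
    T.IsCycle c ↔ c ≠ [] ∧ ∃ x, W vt x x c := by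
  constructor
  · rintro ⟨d, p, rfl, h⟩
    rw [chain_iff vt hv] at h
    exact ⟨by simp, _, h⟩
  · rintro ⟨h0, x, h⟩
    cases c with
    | nil => exact absurd rfl h0
    | cons d p =>
        refine ⟨d, p, rfl, ?_⟩
        rw [chain_iff vt hv]
        have := ((W_cons vt).1 h).1
        rw [this]
        exact h

theorem vt_next (d : T.Dart) : vt (T.next d) = vt (T.rev d) := by
  rw [← hv]
  refine Equiv.Perm.SameCycle.symm ?_
  refine ⟨1, ?_⟩
  simp [T.rev_rev]

/-- Homotopy. -/
local instance : Trans (Relation.EqvGen T.Move) (Relation.EqvGen T.Move)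
    (Relation.EqvGen T.Move) := ⟨fun h h' => Relation.EqvGen.trans _ _ _ h h'⟩

theorem H_back {x y z : ℕ} {u w : List T.Dart} (d : T.Dart) (hu : W vt z x u)
    (hw : W vt y z w) (h : W vt x y [d, T.rev d]) :
    Relation.EqvGen T.Move (u ++ [d, T.rev d] ++ w) (u ++ w) := by
  refine Relation.EqvGen.rel _ _ (Move.backtrack u w d ?_)
  rw [isCycle_iff vt hv]
  refine ⟨by simp, z, ?_⟩
  rw [W_append, ]
  refine ⟨y, ?_, hw⟩
  rw [W_append]
  exact ⟨x, hu, h⟩

theorem H_face {x y z : ℕ} {u w : List T.Dart} (d : T.Dart) (hu : W vt z x u)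
    (hw : W vt y z w) (h : W vt x y [d, T.next d, T.next (T.next d)]) :
    Relation.EqvGen T.Move (u ++ [d, T.next d, T.next (T.next d)] ++ w) (u ++ w) := by
  refine Relation.EqvGen.rel _ _ (Move.face u w d ?_)
  rw [isCycle_iff vt hv]
  refine ⟨by simp, z, ?_⟩
  rw [W_append, ]
  refine ⟨y, ?_, hw⟩
  rw [W_append]
  exact ⟨x, hu, h⟩

/-- `f` can be replaced by the two other sides of the triangle on its right. -/
theorem H_right {x y z : ℕ} {u w : List T.Dart} (f : T.Dart) (hu : W vt z x u)
    (hw : W vt y z w) (h : W vt x y [f]) :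
    W vt x y [T.next (T.rev f), T.next (T.next (T.rev f))] ∧
    Relation.EqvGen T.Move (u ++ [f] ++ w)
      (u ++ [T.next (T.rev f), T.next (T.next (T.rev f))] ++ w) := by
  have hn := vt_next vt hv
  simp only [W_cons, W_nil] at h
  obtain ⟨hx, hy⟩ := h
  have e3 : vt (T.rev (T.next (T.next (T.rev f)))) = vt (T.rev f) := by
    rw [← hn, T.next_next_next]
  have h1 : W vt x y [T.next (T.rev f), T.next (T.next (T.rev f))] := by
    simp only [W_cons, W_nil]
    refine ⟨?_, ?_, ?_⟩
    · rw [hn, T.rev_rev, hx]
    · rw [hn]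
    · rw [e3, hy]
  refine ⟨h1, ?_⟩
  have hb := H_back vt hv (x := x) (y := x) (z := z) (u := u)
    (w := [T.next (T.rev f), T.next (T.next (T.rev f))] ++ w) f hu
    ((W_append vt).2 ⟨y, h1, hw⟩) (by
      simp only [W_cons, W_nil, T.rev_rev, hx, hy, and_self])
  have hf := H_face vt hv (x := y) (y := y) (z := z) (u := u ++ [f]) (w := w) (T.rev f)
    ((W_append vt).2 ⟨x, hu, by simp only [W_cons, W_nil]; exact ⟨hx, hy⟩⟩) hw (by
      simp only [W_cons, W_nil]
      exact ⟨hy, hn _, hn _, by rw [e3, hy]⟩)
  have e1 : u ++ [f, T.rev f] ++ ([T.next (T.rev f), T.next (T.next (T.rev f))] ++ w)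
      = u ++ [f] ++ [T.rev f, T.next (T.rev f), T.next (T.next (T.rev f))] ++ w := by simp
  rw [e1] at hb
  refine Relation.EqvGen.trans _ _ _ (Relation.EqvGen.symm _ _ hf) ?_
  simpa using hb

/-- `f` can be replaced by the two other sides of the triangle on its left. -/
theorem H_left {x y z : ℕ} {u w : List T.Dart} (f : T.Dart) (hu : W vt z x u)
    (hw : W vt y z w) (h : W vt x y [f]) :
    W vt x y [T.rev (T.next (T.next f)), T.rev (T.next f)] ∧
    Relation.EqvGen T.Move (u ++ [f] ++ w)
      (u ++ [T.rev (T.next (T.next f)), T.rev (T.next f)] ++ w) := by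
  have hn := vt_next vt hv
  simp only [W_cons, W_nil] at h
  obtain ⟨hx, hy⟩ := h
  have e3 : vt (T.rev (T.next (T.next f))) = vt f := by
    rw [← hn, T.next_next_next]
  have h1 : W vt x y [T.rev (T.next (T.next f)), T.rev (T.next f)] := by
    simp only [W_cons, W_nil, T.rev_rev]
    refine ⟨by rw [e3, hx], (hn _).symm, by rw [hn, hy]⟩
  refine ⟨h1, ?_⟩
  -- [f, nf, nnf, rev nnf, rev nf]
  have hf := H_face vt hv (x := x) (y := x) (z := z) (u := u)
    (w := [T.rev (T.next (T.next f)), T.rev (T.next f)] ++ w) f hu
    ((W_append vt).2 ⟨y, h1, hw⟩) (by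
      simp only [W_cons, W_nil]
      exact ⟨hx, hn _, hn _, by rw [e3, hx]⟩)
  have hb1 := H_back vt hv (x := vt (T.rev (T.next f))) (y := vt (T.rev (T.next f))) (z := z)
    (u := u ++ [f, T.next f]) (w := [T.rev (T.next f)] ++ w) (T.next (T.next f))
    ((W_append vt).2 ⟨x, hu, by simp only [W_cons, W_nil]; exact ⟨hx, hn _, trivial⟩⟩)
    ((W_append vt).2 ⟨y, by
      simp only [W_cons, W_nil, T.rev_rev, true_and]; rw [hn, hy], hw⟩) (by
      simp only [W_cons, W_nil, T.rev_rev, hn, and_self])
  have hb2 := H_back vt hv (x := y) (y := y) (z := z)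
    (u := u ++ [f]) (w := w) (T.next f)
    ((W_append vt).2 ⟨x, hu, by simp only [W_cons, W_nil]; exact ⟨hx, hy⟩⟩) hw (by
      simp only [W_cons, W_nil, T.rev_rev, hn, hy, and_self])
  have e1 : u ++ [f, T.next f, T.next (T.next f)] ++
        ([T.rev (T.next (T.next f)), T.rev (T.next f)] ++ w)
      = u ++ [f, T.next f] ++ [T.next (T.next f), T.rev (T.next (T.next f))] ++
        ([T.rev (T.next f)] ++ w) := by simp
  rw [e1] at hf
  have e2 : u ++ [f, T.next f] ++ ([T.rev (T.next f)] ++ w)
      = u ++ [f] ++ [T.next f, T.rev (T.next f)] ++ w := by simp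
  rw [e2] at hb1
  refine Relation.EqvGen.trans _ _ _ (Relation.EqvGen.symm _ _ hb2) ?_
  refine Relation.EqvGen.trans _ _ _ (Relation.EqvGen.symm _ _ hb1) ?_
  simpa using hf

omit hv

/-- `p` can be deformed to `p'` within closed walks based at `v` starting with `p`. -/
def PD (v : ℕ) (p p' : List T.Dart) : Prop :=
  ∀ y, W vt v y p → W vt v y p' ∧
    ∀ w, W vt y v w → Relation.EqvGen T.Move (p ++ w) (p' ++ w)

theorem PD.refl (v : ℕ) (p : List T.Dart) : PD vt v p p :=
  fun _ h => ⟨h, fun _ _ => Relation.EqvGen.refl _⟩

theorem PD.trans {v : ℕ} {p q r : List T.Dart} (h : PD vt v p q) (h' : PD vt v q r) :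
    PD vt v p r := fun y hy =>
  ⟨(h' y (h y hy).1).1, fun w hw =>
    Relation.EqvGen.trans _ _ _ ((h y hy).2 w hw) ((h' y (h y hy).1).2 w hw)⟩

theorem PD.append_dart {v : ℕ} {p q : List T.Dart} (h : PD vt v p q) (d : T.Dart) :
    PD vt v (p ++ [d]) (q ++ [d]) := by
  intro y hy
  rw [W_append] at hy
  obtain ⟨z, h1, h2⟩ := hy
  refine ⟨(W_append vt).2 ⟨z, (h z h1).1, h2⟩, fun w hw => ?_⟩
  have := (h z h1).2 ([d] ++ w) ((W_append vt).2 ⟨y, h2, hw⟩)
  simpa using this

include hv

theorem PD_applyMv (v m : ℕ) (L : List T.Dart) : PD vt v L (applyMv T.rev T.next m L) := by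
  unfold applyMv
  have hL : L.take (m / 4) ++ L.drop (m / 4) = L := List.take_append_drop _ _
  generalize L.take (m / 4) = pre at hL ⊢
  generalize L.drop (m / 4) = post at hL ⊢
  subst hL
  split
  · -- cancel
    rename_i d e t _
    split_ifs with he
    · subst he
      intro y hy
      rw [W_append] at hy
      obtain ⟨z, h1, h2⟩ := hy
      simp only [W_cons, T.rev_rev] at h2
      obtain ⟨h2, -, h3⟩ := h2
      refine ⟨(W_append vt).2 ⟨z, h1, by rw [← h2]; exact h3⟩, fun w hw => ?_⟩
      have := H_back vt hv (x := z) (y := z) (z := v) (u := pre) (w := t ++ w) d h1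
        ((W_append vt).2 ⟨y, by rw [← h2]; exact h3, hw⟩) (by
          simp only [W_cons, W_nil, T.rev_rev, h2, and_self])
      simpa using this
    · exact PD.refl _ _ _
  · rename_i d e t _
    split_ifs with he he
    · subst he
      intro y hy
      rw [W_append] at hy
      obtain ⟨z, h1, h2⟩ := hy
      simp only [W_cons] at h2
      obtain ⟨h2, -, h3⟩ := h2
      have hn := vt_next vt hv
      have hf : W vt z (vt (T.rev (T.next d))) [T.rev (T.next (T.next d))] := by
        simp only [W_cons, W_nil, T.rev_rev, hn, and_true]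
        rw [← hn, T.next_next_next, h2]
      have key := fun w (hw : W vt y v w) =>
        H_right vt hv (x := z) (y := vt (T.rev (T.next d))) (z := v) (u := pre) (w := t ++ w)
          (T.rev (T.next (T.next d))) h1 ((W_append vt).2 ⟨y, h3, hw⟩) hf
      refine ⟨?_, fun w hw => ?_⟩
      · refine (W_append vt).2 ⟨z, h1, ?_⟩
        simp only [W_cons, W_nil] at hf
        rw [W_cons]
        refine ⟨hf.1, ?_⟩
        rw [hf.2]
        exact h3
      · have := (key w hw).2
        simp only [T.rev_rev, T.next_next_next] at this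
        refine Relation.EqvGen.symm _ _ ?_
        simpa using this
    · intro y hy
      rw [W_append] at hy
      obtain ⟨z, h1, h2⟩ := hy
      simp only [W_cons] at h2
      obtain ⟨h2, h4, h3⟩ := h2
      have hn := vt_next vt hv
      have hf : W vt z (vt (T.rev e)) [T.next (T.rev d)] := by
        simp only [W_cons, W_nil]
        refine ⟨by rw [hn, T.rev_rev, h2], ?_⟩
        rw [← hn, he, T.next_next_next]
      have key := fun w (hw : W vt y v w) =>
        H_left vt hv (x := z) (y := vt (T.rev e)) (z := v) (u := pre) (w := t ++ w)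
          (T.next (T.rev d)) h1 ((W_append vt).2 ⟨y, h3, hw⟩) hf
      refine ⟨?_, fun w hw => ?_⟩
      · refine (W_append vt).2 ⟨z, h1, ?_⟩
        simp only [W_cons, W_nil] at hf
        rw [W_cons]
        refine ⟨hf.1, ?_⟩
        rw [hf.2]
        exact h3
      · have := (key w hw).2
        have e1 : T.next (T.next (T.rev d)) = T.rev e := by
          rw [he, T.next_next_next]
        have e2 : T.next (T.next (T.next (T.rev d))) = T.rev d := T.next_next_next _
        rw [e2, e1, T.rev_rev, T.rev_rev] at this
        refine Relation.EqvGen.symm _ _ ?_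
        simpa using this
    · exact PD.refl _ _ _
  · rename_i f t _
    intro y hy
    rw [W_append] at hy
    obtain ⟨z, h1, h2⟩ := hy
    rw [W_cons] at h2
    obtain ⟨h2, h3⟩ := h2
    have key := fun w (hw : W vt y v w) =>
      H_right vt hv (x := z) (y := vt (T.rev f)) (z := v) (u := pre) (w := t ++ w)
        f h1 ((W_append vt).2 ⟨y, h3, hw⟩) (by simp only [W_cons, W_nil]; exact ⟨h2, trivial⟩)
    refine ⟨?_, fun w hw => ?_⟩
    · have hn := vt_next vt hv
      refine (W_append vt).2 ⟨z, h1, ?_⟩
      simp only [W_cons]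
      refine ⟨by rw [hn, T.rev_rev, h2], hn _, ?_⟩
      rw [← hn, T.next_next_next]
      exact h3
    · have := (key w hw).2
      simpa using this
  · rename_i f t _
    intro y hy
    rw [W_append] at hy
    obtain ⟨z, h1, h2⟩ := hy
    rw [W_cons] at h2
    obtain ⟨h2, h3⟩ := h2
    have key := fun w (hw : W vt y v w) =>
      H_left vt hv (x := z) (y := vt (T.rev f)) (z := v) (u := pre) (w := t ++ w)
        f h1 ((W_append vt).2 ⟨y, h3, hw⟩) (by simp only [W_cons, W_nil]; exact ⟨h2, trivial⟩)
    refine ⟨?_, fun w hw => ?_⟩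
    · have hn := vt_next vt hv
      refine (W_append vt).2 ⟨z, h1, ?_⟩
      simp only [W_cons, T.rev_rev]
      refine ⟨by rw [← hn, T.next_next_next, h2], (hn _).symm, ?_⟩
      rw [hn]
      exact h3
    · have := (key w hw).2
      simpa using this
  · exact PD.refl _ _ _

theorem PD_runMv (v : ℕ) (ms : List ℕ) (L : List T.Dart) :
    PD vt v L (runMv T.rev T.next ms L) := by
  induction ms generalizing L with
  | nil => exact PD.refl _ _ _
  | cons m ms ih =>
      rw [runMv]
      exact (PD_applyMv vt hv v m L).trans vt (ih _)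

omit hv

/-- The value of a cochain on a list of darts. -/
def sumw {D : Type} (om : D → ℤ) (l : List D) : ℤ := (l.map om).sum

/-- The reversed walk. -/
def inv (l : List T.Dart) : List T.Dart := (l.map T.rev).reverse

theorem sumw_append {D : Type} (om : D → ℤ) (p q : List D) :
    sumw om (p ++ q) = sumw om p + sumw om q := by
  simp [sumw]

theorem sumw_eq (om : T.Dart → ℤ) (c : List T.Dart) :
    sumw om c = ∑ d, (c.count d : ℤ) * om d := by
  induction c with
  | nil => simp [sumw]
  | cons a l ih =>
      have : sumw om (a :: l) = om a + sumw om l := by simp [sumw]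
      rw [this, ih]
      have h2 : ∀ d, ((List.count d (a :: l) : ℕ) : ℤ) * om d
          = (if a = d then om d else 0) + (l.count d : ℤ) * om d := by
        intro d
        rw [List.count_cons]
        by_cases h : a = d
        · subst h
          simp
          ring
        · simp [h]
      simp only [h2]
      rw [Finset.sum_add_distrib]
      simp

theorem sumw_separating {om : T.Dart → ℤ} (h1 : ∀ d, om (T.rev d) = - om d)
    (h3 : ∀ d, om d + om (T.next d) + om (T.next (T.next d)) = 0) {c : List T.Dart}
    (hc : T.Separating c) : sumw om c = 0 := by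
  obtain ⟨n, hn, hc⟩ := hc
  have hs := sumw_eq om c
  have e1 : ∑ d, (c.count (T.rev d) : ℤ) * om d = - ∑ d, (c.count d : ℤ) * om d := by
    rw [← Equiv.sum_comp T.rev]
    rw [← Finset.sum_neg_distrib]
    refine Finset.sum_congr rfl fun d _ => ?_
    rw [T.rev_rev, h1]
    ring
  have e2 : ∑ d, (n (T.rev d) : ℤ) * om d = - ∑ d, (n d : ℤ) * om d := by
    rw [← Equiv.sum_comp T.rev]
    rw [← Finset.sum_neg_distrib]
    refine Finset.sum_congr rfl fun d _ => ?_
    rw [T.rev_rev, h1]
    ring
  have e3 : ∑ d, ((c.count d : ℤ) - c.count (T.rev d)) * om d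
      = ∑ d, (n d - n (T.rev d)) * om d :=
    Finset.sum_congr rfl fun d _ => by rw [hc]
  simp only [sub_mul, Finset.sum_sub_distrib] at e3
  rw [e1, e2] at e3
  have f1 : ∑ d, n d * om (T.next d) = ∑ d, n d * om d := by
    rw [← Equiv.sum_comp T.next (fun d => n d * om d)]
    refine Finset.sum_congr rfl fun d _ => by rw [hn]
  have f2 : ∑ d, n d * om (T.next (T.next d)) = ∑ d, n d * om d := by
    rw [← f1, ← Equiv.sum_comp T.next (fun d => n d * om (T.next d))]
    refine Finset.sum_congr rfl fun d _ => by rw [hn]
  have f3 : ∑ d, n d * (om d + om (T.next d) + om (T.next (T.next d))) = 0 := by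
    simp [h3]
  simp only [mul_add, Finset.sum_add_distrib] at f3
  rw [f1, f2] at f3
  rw [hs]
  linarith

theorem sumw_inv {om : T.Dart → ℤ} (h1 : ∀ d, om (T.rev d) = - om d) (q : List T.Dart) :
    sumw om (inv q) = - sumw om q := by
  induction q with
  | nil => simp [inv, sumw]
  | cons d q ih =>
      have : inv (d :: q) = inv q ++ [T.rev d] := by simp [inv]
      rw [this, sumw_append, ih]
      simp only [sumw, List.map_cons, List.map_nil, List.sum_cons, List.sum_nil, h1]
      ring

theorem W_inv {x y : ℕ} {q : List T.Dart} (h : W vt x y q) : W vt y x (inv q) := by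
  induction q generalizing x with
  | nil =>
      rw [W_nil] at h
      subst h
      simp [inv, W_nil]
  | cons d q ih =>
      rw [W_cons] at h
      have : inv (d :: q) = inv q ++ [T.rev d] := by simp [inv]
      rw [this, W_append]
      refine ⟨_, ih h.2, ?_⟩
      simp only [W_cons, W_nil, T.rev_rev, true_and]
      exact h.1

include hv

theorem H_inv {x y : ℕ} {q : List T.Dart} (h : W vt x y q) :
    Relation.EqvGen T.Move (inv q ++ q) [] := by
  induction q generalizing x with
  | nil => exact Relation.EqvGen.refl _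
  | cons d q ih =>
      have h' := (W_cons vt).1 h
      have e : inv (d :: q) ++ (d :: q) = inv q ++ [T.rev d, T.rev (T.rev d)] ++ q := by
        simp [inv, T.rev_rev]
      rw [e]
      refine Relation.EqvGen.trans _ _ _ ?_ (ih h'.2)
      refine H_back vt hv (x := vt (T.rev d)) (y := vt (T.rev d)) (z := y) (T.rev d)
        (W_inv vt h'.2) h'.2 ?_
      simp only [W_cons, W_nil, T.rev_rev, and_self]

omit hv

/-- The two paths from `v` of length at most three with the same value of the cochain can be
deformed to a common path. -/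
def Good (om : T.Dart → ℤ) (v : ℕ) : Prop :=
  ∀ p q y, W vt v y p → W vt v y q → p.length ≤ 3 → q.length ≤ 3 → sumw om p = sumw om q →
    ∃ R, PD vt v p R ∧ PD vt v q R

include hv

theorem contractible_of_good {om : T.Dart → ℤ} (h1 : ∀ d, om (T.rev d) = - om d)
    {v : ℕ} (hg : Good vt om v) {c : List T.Dart} (hc : W vt v v c) (hs : sumw om c = 0)
    (hl : c.length ≤ 6) : Relation.EqvGen T.Move c [] := by
  have hcc : c.take 3 ++ c.drop 3 = c := List.take_append_drop _ _
  have lp : (c.take 3).length ≤ 3 := by simp
  have lq : (c.drop 3).length ≤ 3 := by simp; omega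
  generalize c.take 3 = p at hcc lp
  generalize c.drop 3 = q at hcc lq
  subst hcc
  obtain ⟨y, hp, hq⟩ := (W_append vt).1 hc
  have hq' := W_inv vt hq
  obtain ⟨R, r1, r2⟩ := hg p (inv q) y hp hq' lp (by simpa [inv] using lq) (by
    rw [sumw_inv h1]
    rw [sumw_append] at hs
    linarith)
  have a1 := (r1 y hp).2 q hq
  have a2 := (r2 y hq').2 q hq
  have a3 := H_inv vt hv hq
  exact Relation.EqvGen.trans _ _ _ a1
    (Relation.EqvGen.trans _ _ _ (Relation.EqvGen.symm _ _ a2) a3)

theorem contractible_of_short {om : T.Dart → ℤ} (h1 : ∀ d, om (T.rev d) = - om d)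
    (h3 : ∀ d, om d + om (T.next d) + om (T.next (T.next d)) = 0)
    (B : List ℕ) (hB : ∀ d, vt d ∈ B ∨ vt (T.rev d) ∈ B) (hg : ∀ v ∈ B, Good vt om v)
    {c : List T.Dart} (hc : T.IsCycle c) (hs : T.Separating c) (hl : c.length ≤ 6) :
    T.Contractible c := by
  have hs' := sumw_separating h1 h3 hs
  have hc' := (isCycle_iff vt hv).1 hc
  obtain ⟨h0, x, hx⟩ := hc'
  cases c with
  | nil => exact absurd rfl h0
  | cons d u =>
      have hx' := (W_cons vt).1 hx
      rcases hB d with hd | hd
      · rw [hx'.1] at hd
        exact contractible_of_good vt hv h1 (hg x hd) hx hs' hl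
      · have hm : Relation.EqvGen T.Move (d :: u) (u ++ [d]) :=
          Relation.EqvGen.rel _ _ (Move.rotate d u hc)
        refine Relation.EqvGen.trans _ _ _ hm ?_
        refine contractible_of_good vt hv h1 (hg _ hd) ?_ ?_ (by simpa using hl)
        · rw [W_append]
          refine ⟨x, hx'.2, ?_⟩
          simp only [W_cons, W_nil, and_true]
          exact hx'.1
        · rw [sumw_append]
          simp only [sumw, List.map_cons, List.map_nil, List.sum_cons, List.sum_nil] at hs' ⊢
          linarith

omit hv

/-- The condition checked for one representative path `R` starting at `v`. -/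
def rowOK {D : Type} [DecidableEq D] (rv nx : D → D) (vt : D → ℕ) (om : D → ℤ) (darts : List D)
    (v : ℕ) (S : List (List D)) (R : List D) (row : List (D × ℕ × List ℕ)) : Bool :=
  darts.all fun d => (!(decide (endv rv vt v R = some (vt d)))) || row.any fun e =>
    decide (e.1 = d) && (match S[e.2.1]? with
      | some R' => decide (runMv rv nx e.2.2 (R ++ [d]) = R') &&
          decide (sumw om R' = sumw om R + om d) && decide (R'.length ≤ R.length + 1)
      | none => false)

/-- The condition checked for the base vertex `v`. -/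
def tableOK {D : Type} [DecidableEq D] (rv nx : D → D) (vt : D → ℕ) (om : D → ℤ)
    (darts : List D) (v : ℕ) (S : List (List D)) (tr : List (List (D × ℕ × List ℕ))) : Bool :=
  decide ([] ∈ S) && decide (S.length = tr.length) &&
    decide ((S.map (sumw om)).IsChain (· < ·)) &&
    (S.zip tr).all fun x => (decide (2 < x.1.length)) || rowOK rv nx vt om darts v S x.1 x.2

include hv

theorem good_of_table {om : T.Dart → ℤ} (darts : List T.Dart) (hd : ∀ d, d ∈ darts) {v : ℕ}
    {S : List (List T.Dart)} {tr : List (List (T.Dart × ℕ × List ℕ))}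
    (h : tableOK T.rev T.next vt om darts v S tr = true) : Good vt om v := by
  simp only [tableOK, Bool.and_eq_true, decide_eq_true_eq] at h
  obtain ⟨⟨⟨hnil, hlen⟩, hsort⟩, hrows⟩ := h
  have hinj : ∀ R ∈ S, ∀ R' ∈ S, sumw om R = sumw om R' → R = R' := by
    have hp : (S.map (sumw om)).Pairwise (· < ·) := List.isChain_iff_pairwise.1 hsort
    have hn : (S.map (sumw om)).Nodup := hp.imp fun h => ne_of_lt h
    intro R hR R' hR' e
    exact List.inj_on_of_nodup_map hn hR hR' e
  have hcov : ∀ n, ∀ p : List T.Dart, p.length = n → n ≤ 3 → ∀ y, W vt v y p →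
      ∃ R ∈ S, R.length ≤ n ∧ PD vt v p R ∧ sumw om R = sumw om p := by
    intro n
    induction n with
    | zero =>
        intro p hp _ y hy
        have : p = [] := List.length_eq_zero_iff.1 hp
        subst this
        exact ⟨[], hnil, by simp, PD.refl _ _ _, rfl⟩
    | succ n ih =>
        intro p hp hn y hy
        obtain ⟨p', d, rfl⟩ : ∃ p' d, p = p' ++ [d] := by
          refine ⟨p.dropLast, p.getLast (by
            rintro rfl
            simp at hp), (List.dropLast_append_getLast _).symm⟩
        obtain ⟨z, hz, hzd⟩ := (W_append vt).1 hy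
        have lp' : p'.length = n := by simpa using hp
        obtain ⟨R, hR, hRl, hPD, hsum⟩ := ih p' lp' (by omega) z hz
        have hzR := (hPD z hz).1
        rw [List.all_eq_true] at hrows
        obtain ⟨i, hi, hiR⟩ := List.getElem_of_mem hR
        have hmem : (R, tr[i]'(by omega)) ∈ S.zip tr := by
          refine List.mem_iff_getElem.2 ⟨i, by simp; omega, ?_⟩
          simp [hiR]
        have hrow := hrows _ hmem
        simp only [Bool.or_eq_true, decide_eq_true_eq] at hrow
        rcases hrow with hrow | hrow
        · omega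
        · rw [rowOK, List.all_eq_true] at hrow
          have hrow := hrow d (hd d)
          simp only [Bool.or_eq_true, Bool.not_eq_true', decide_eq_false_iff_not] at hrow
          have hdz : vt d = z := ((W_cons vt).1 hzd).1
          rcases hrow with hrow | hrow
          · exact absurd (by rw [hdz]; exact hzR) hrow
          · rw [List.any_eq_true] at hrow
            obtain ⟨e, he, hrow⟩ := hrow
            simp only [Bool.and_eq_true, decide_eq_true_eq] at hrow
            obtain ⟨he1, hrow⟩ := hrow
            cases hS : S[e.2.1]? with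
            | none => rw [hS] at hrow; simp at hrow
            | some R' =>
                rw [hS] at hrow
                simp only [Bool.and_eq_true, decide_eq_true_eq] at hrow
                obtain ⟨⟨hrun, hsm⟩, hle⟩ := hrow
                refine ⟨R', List.mem_of_getElem? hS, by omega, ?_, ?_⟩
                · refine (PD.append_dart vt hPD d).trans vt ?_
                  rw [← hrun]
                  exact PD_runMv vt hv v e.2.2 (R ++ [d])
                · rw [hsm, hsum, sumw_append]
                  simp [sumw]
  intro p q y hp hq lp lq hpq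
  obtain ⟨R, hR, -, hR1, hR2⟩ := hcov _ p rfl lp y hp
  obtain ⟨R', hR', -, hR1', hR2'⟩ := hcov _ q rfl lq y hq
  have : R = R' := hinj R hR R' hR' (by rw [hR2, hR2', hpq])
  subst this
  exact ⟨R, hR1, hR1'⟩

omit hv

/-- Invariance of the holonomy of a flat connection. -/
theorem prod_eq_one_of_contractible {G : Type} [Group G] {g : T.Dart → G}
    (h2 : ∀ d, g d * g (T.rev d) = 1)
    (h3 : ∀ d, g d * g (T.next d) * g (T.next (T.next d)) = 1) {c : List T.Dart}
    (hc : T.Contractible c) : (c.map g).prod = 1 := by
  have key : ∀ a b, Relation.EqvGen T.Move a b → ((a.map g).prod = 1 ↔ (b.map g).prod = 1) := by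
    intro a b hab
    induction hab with
    | rel a b h =>
        cases h with
        | backtrack u v d h =>
            simp only [List.map_append, List.prod_append, List.map_cons, List.map_nil,
              List.prod_cons, List.prod_nil, mul_one]
            rw [h2, mul_one]
        | face u v d h =>
            simp only [List.map_append, List.prod_append, List.map_cons, List.map_nil,
              List.prod_cons, List.prod_nil, mul_one]
            rw [← mul_assoc (g d), h3, mul_one]
        | rotate d u h =>
            simp only [List.map_append, List.prod_append, List.map_cons, List.map_nil,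
              List.prod_cons, List.prod_nil, mul_one]
            exact mul_eq_one_comm
    | refl a => exact Iff.rfl
    | symm a b _ ih => exact ih.symm
    | trans a b c _ _ ih1 ih2 => exact ih1.trans ih2
  exact (key _ _ hc).2 (by simp)

end Pool.Agent.P8H65.Sncc
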